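import Mathlib

/-!
# The group of the `S`-units is finitely generated
-/

namespace VU

open NumberField IsDedekindDomain

theorem fp_one {K : Type} [Field K] [NumberField K] (v : FinitePlace K) (x : K) :
    v x = 1 ↔ v.maximalIdeal.valuation K x = 1 := by
  have h1 : v x = ((WithZeroMulInt.toNNReal (HeightOneSpectrum.absNorm_ne_zero v.maximalIdeal)
      (v.maximalIdeal.valuation K x) : NNReal) : ℝ) := by
    rw [← FinitePlace.norm_embedding_eq, FinitePlace.norm_embedding]
    rfl
  rw [h1, NNReal.coe_eq_one]
  have h2 := (WithZeroMulInt.toNNReal_strictMono (HeightOneSpectrum.one_lt_absNorm_nnreal v.maximalIdeal)).injective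
  constructor
  · intro h
    apply h2
    rw [h, map_one]
  · intro h
    rw [h, map_one]

/-- the elements with absolute value one at all finite places outside `S` -/
def Su {K : Type} [Field K] [NumberField K] (S : Finset (FinitePlace K)) : Subgroup Kˣ where
  carrier := {a | ∀ v : FinitePlace K, v ∉ S → v (a : K) = 1}
  mul_mem' := fun {a b} ha hb v hv => by
    rw [Units.val_mul, map_mul, ha v hv, hb v hv, one_mul]
  one_mem' := fun v _ => by rw [Units.val_one, map_one]
  inv_mem' := fun {a} ha v hv => by
    rw [Units.val_inv_eq_inv_val, map_inv₀, ha v hv, inv_one]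

theorem mem_Su {K : Type} [Field K] [NumberField K] {S : Finset (FinitePlace K)} {a : Kˣ} :
    a ∈ Su S ↔ ∀ v : FinitePlace K, v ∉ S → v (a : K) = 1 := Iff.rfl

theorem Su_fg {K : Type} [Field K] [NumberField K] (S : Finset (FinitePlace K)) : (Su S).FG := by
  classical
  rw [← Group.fg_iff_subgroup_fg, GroupFG.iff_add_fg, ← Module.Finite.iff_addGroup_fg]
  -- the valuations
  let f0 : Additive (Su S) →+ (S → ℤ) :=
    { toFun := fun a v => Multiplicative.toAdd (v.1.maximalIdeal.valuationOfNeZero (K := K) ((Additive.toMul a : Su S) : Kˣ))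
      map_zero' := by
        funext v
        show Multiplicative.toAdd (v.1.maximalIdeal.valuationOfNeZero (K := K) 1) = 0
        rw [map_one]
        rfl
      map_add' := fun a b => by
        funext v
        show Multiplicative.toAdd (v.1.maximalIdeal.valuationOfNeZero (K := K)
          (((Additive.toMul a : Su S) : Kˣ) * ((Additive.toMul b : Su S) : Kˣ))) = _
        rw [map_mul]
        rfl }
  let f : Additive (Su S) →ₗ[ℤ] (S → ℤ) := f0.toIntLinearMap
  -- the units
  have hu : ∀ (e : (𝓞 K)ˣ) (v : FinitePlace K), v ((Units.map (algebraMap (𝓞 K) K : 𝓞 K →* K) e : Kˣ) : K) = 1 := by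
    intro e v
    rw [fp_one, ← HeightOneSpectrum.valuationOfNeZero_eq, HeightOneSpectrum.valuation_of_unit_eq, WithZero.coe_one]
  let g0 : Additive (𝓞 K)ˣ →+ Additive (Su S) :=
    { toFun := fun e => Additive.ofMul ⟨Units.map (algebraMap (𝓞 K) K : 𝓞 K →* K) (Additive.toMul e), fun v _ => hu _ v⟩
      map_zero' := by
        apply Additive.toMul.injective
        apply Subtype.ext
        exact map_one _
      map_add' := fun a b => by
        apply Additive.toMul.injective
        apply Subtype.ext
        exact map_mul _ _ _ }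
  let g : Additive (𝓞 K)ˣ →ₗ[ℤ] Additive (Su S) := g0.toIntLinearMap
  have hker : LinearMap.ker f ≤ LinearMap.range g := by
    intro a ha
    have h1 : f a = 0 := ha
    set x : Kˣ := ((Additive.toMul a : Su S) : Kˣ) with hx
    have h2 : ∀ v : HeightOneSpectrum (𝓞 K), v.valuation K (x : K) = 1 := by
      intro v
      by_cases hv : FinitePlace.mk v ∈ S
      · have h3 := congrFun h1 ⟨FinitePlace.mk v, hv⟩
        have h4 : Multiplicative.toAdd ((FinitePlace.mk v).maximalIdeal.valuationOfNeZero (K := K) x) = 0 := h3
        rw [FinitePlace.maximalIdeal_mk] at h4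
        have h5 : v.valuationOfNeZero (K := K) x = 1 := h4
        rw [← HeightOneSpectrum.valuationOfNeZero_eq, h5, WithZero.coe_one]
      · have h3 := (Additive.toMul a : Su S).2 (FinitePlace.mk v) hv
        rw [fp_one, FinitePlace.maximalIdeal_mk] at h3
        exact h3
    obtain ⟨y, hy⟩ := HeightOneSpectrum.mem_integers_of_valuation_le_one K (x : K) fun v => (h2 v).le
    obtain ⟨z, hz⟩ := HeightOneSpectrum.mem_integers_of_valuation_le_one K ((x⁻¹ : Kˣ) : K) fun v => by
      rw [Units.val_inv_eq_inv_val, map_inv₀, h2 v, inv_one]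
    have hyz : y * z = 1 := by
      apply FaithfulSMul.algebraMap_injective (𝓞 K) K
      rw [map_mul, hy, hz, map_one, Units.mul_inv]
    refine ⟨Additive.ofMul (Units.mkOfMulEqOne y z hyz), ?_⟩
    apply Additive.toMul.injective
    apply Subtype.ext
    apply Units.ext
    exact hy
  have h1 : (⊤ : Submodule ℤ (Additive (Su S))).FG := by
    refine Submodule.fg_of_fg_map_of_fg_inf_ker f (IsNoetherian.noetherian _) ?_
    rw [top_inf_eq]
    have h2 : IsNoetherian ℤ (LinearMap.range g) := by
      have h3 : (LinearMap.range g).FG := by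
        rw [LinearMap.range_eq_map]
        exact Submodule.FG.map g Module.Finite.fg_top
      exact isNoetherian_of_fg_of_noetherian _ h3
    have h4 : LinearMap.ker f = Submodule.map (LinearMap.range g).subtype
        (Submodule.comap (LinearMap.range g).subtype (LinearMap.ker f)) := by
      rw [Submodule.map_comap_subtype, inf_eq_right.2 hker]
    rw [h4]
    exact Submodule.FG.map _ (IsNoetherian.noetherian _)
  exact ⟨h1⟩

end VU
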