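import Pool.Agent.Lib.MP_17a322_ntVU.W2
import Pool.Agent.Lib.MP_17a322_ntLH.F4
import Pool.Agent.Lib.MP_17a322_ntVK.SD1

/-!
# One local scaling of a point for all degrees
-/

namespace VU

open Finset NumberField LVH VK

/-- a place of degree one is a finite place -/
theorem pl_iff (K : Type) [Field K] [NumberField K] {p : ℕ} (hp : p.Prime) (π : Pl K p) :
    ∃ v : FinitePlace K, v (p : K) < 1 ∧ ∀ x : K, x ∈ π.V ↔ v x ≤ 1 := by
  have : Fact p.Prime := ⟨hp⟩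
  obtain ⟨v, hv, h⟩ := pl_place K hp π
  refine ⟨v, hv, fun x => ⟨fun hx => ?_, h x⟩⟩
  by_contra hcon
  push Not at hcon
  have hp0 : (p : K) ≠ 0 := by exact_mod_cast hp.ne_zero
  have hvp : 0 < v (p : K) := FinitePlace.pos_iff.2 hp0
  obtain ⟨k, hk⟩ := pow_unbounded_of_one_lt ((v (p : K))⁻¹) hcon
  have hx0 : x ≠ 0 := by
    rintro rfl
    rw [map_zero] at hcon
    linarith
  have h1 : v ((x ^ k * p)⁻¹) ≤ 1 := by
    rw [map_inv₀, map_mul, map_pow]
    refine inv_le_one_of_one_le₀ ?_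
    have h2 := mul_lt_mul_of_pos_right hk hvp
    rw [inv_mul_cancel₀ hvp.ne'] at h2
    exact h2.le
  have h2 : ((p : K))⁻¹ ∈ π.V := by
    have h3 : ((p : K))⁻¹ = x ^ k * (x ^ k * p)⁻¹ := by
      rw [mul_inv, mul_inv_cancel_left₀ (pow_ne_zero k hx0)]
    rw [h3]
    exact π.V.mul_mem _ _ (π.V.pow_mem hx k) (h _ h1)
  have h3 : Rd π ((p : K) * (p : K)⁻¹) (((p : ℤ) : ZMod p) * res π ((p : K)⁻¹)) := by
    have h4 := Rd.int (π := π) (p : ℤ)
    rw [Int.cast_natCast] at h4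
    exact h4.mul (rd_res h2)
  rw [mul_inv_cancel₀ hp0] at h3
  have h4 := h3.unique Rd.one
  rw [Int.cast_natCast, ZMod.natCast_self, zero_mul] at h4
  exact one_ne_zero h4.symm

section

variable {K : Type} [Field K] {p : ℕ} [Fact p.Prime]

private theorem W3_sq {π : Pl K p} {x : K} {r : ZMod p} (h : Rd π (x ^ 2) r) : Rd π x (res π x) ∧ res π x ^ 2 = r := by
  have h1 : x ∈ π.V := mem_pow π (by norm_num) h.choose
  have h2 := rd_res h1
  exact ⟨h2, (h2.pow 2).unique h⟩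

private theorem W3_inv {π : Pl K p} {x : K} (hx : x ∉ π.V) : x ≠ 0 ∧ Rd π x⁻¹ 0 := by
  have h0 : x ≠ 0 := by
    rintro rfl
    exact hx π.V.zero_mem
  have h1 : x⁻¹ ∈ π.V := (π.V.mem_or_inv_mem x).resolve_left hx
  refine ⟨h0, h1, ?_⟩
  refine π.ker ⟨x⁻¹, h1⟩ ?_
  show (x⁻¹)⁻¹ ∉ π.V
  rw [inv_inv]
  exact hx

private theorem W3_red {π : Pl K p} {A B : K} (hA : A ∈ π.V) (hB : B ∈ π.V) {d : ℕ} {x y : K}
    (he : y ^ 2 = x ^ 3 + A * x + B) (hx : x ∉ π.V) (k : RamCov.Ix d) :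
    Rd π ((x⁻¹) ^ d * RamCov.bas K d (some (x, y)) k) (RamCov.bas (ZMod p) d none k) := by
  obtain ⟨hx0, ht⟩ := W3_inv hx
  obtain ⟨t, htdef⟩ : ∃ t, t = x⁻¹ := ⟨_, rfl⟩
  rw [← htdef] at ht ⊢
  have hxt : x * t = 1 := by rw [htdef]; exact mul_inv_cancel₀ hx0
  obtain ⟨s, hsdef⟩ : ∃ s, s = y * t ^ 2 := ⟨_, rfl⟩
  have hs2 : s ^ 2 = t + A * t ^ 3 + B * t ^ 4 := by
    have e1 : s ^ 2 = y ^ 2 * t ^ 4 := by rw [hsdef]; ring
    rw [e1, he]
    have e2 : x ^ 3 * t ^ 4 = t := by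
      have : x ^ 3 * t ^ 4 = (x * t) ^ 3 * t := by ring
      rw [this, hxt]; ring
    have e3 : x * t ^ 4 = t ^ 3 := by
      have : x * t ^ 4 = (x * t) * t ^ 3 := by ring
      rw [this, hxt]; ring
    linear_combination e2 + A * e3
  have hs2r : Rd π (s ^ 2) 0 := by
    rw [hs2]
    have h3 := (ht.add ((rd_res hA).mul (ht.pow 3))).add ((rd_res hB).mul (ht.pow 4))
    simpa using h3
  have hs : Rd π s 0 := by
    obtain ⟨h3, h4⟩ := W3_sq hs2r
    have h5 : res π s = 0 := (pow_eq_zero_iff two_ne_zero).1 h4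
    rwa [h5] at h3
  rcases k with i | i
  · show Rd π (t ^ d * x ^ (i : ℕ)) (if i = Fin.last d then 1 else 0)
    have hi : (i : ℕ) ≤ d := Nat.lt_succ_iff.1 i.2
    have e4 : t ^ d * x ^ (i : ℕ) = t ^ (d - (i : ℕ)) := by
      have e5 : t ^ d = t ^ (i : ℕ) * t ^ (d - (i : ℕ)) := by rw [← pow_add, Nat.add_sub_cancel' hi]
      have e6 : x ^ (i : ℕ) * t ^ (i : ℕ) = 1 := by rw [← mul_pow, hxt, one_pow]
      rw [e5]
      linear_combination (t ^ (d - (i : ℕ))) * e6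
    rw [e4]
    by_cases hl : i = Fin.last d
    · have h6 : (i : ℕ) = d := by rw [hl]; rfl
      rw [if_pos hl, h6, Nat.sub_self, pow_zero]
      exact Rd.one
    · have h6 : (i : ℕ) < d := lt_of_le_of_ne hi fun h7 => hl (Fin.ext (by rw [h7]; rfl))
      rw [if_neg hl]
      have h7 := ht.pow (d - (i : ℕ))
      rwa [zero_pow (by omega)] at h7
  · show Rd π (t ^ d * (x ^ (i : ℕ) * y)) 0
    have hi : (i : ℕ) < d - 1 := i.2
    have hi2 : (i : ℕ) + 2 ≤ d := by omega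
    have e4 : t ^ d * (x ^ (i : ℕ) * y) = t ^ (d - ((i : ℕ) + 2)) * s := by
      have e5 : t ^ d = t ^ (i : ℕ) * t ^ 2 * t ^ (d - ((i : ℕ) + 2)) := by
        rw [← pow_add, ← pow_add, Nat.add_sub_cancel' hi2]
      have e6 : x ^ (i : ℕ) * t ^ (i : ℕ) = 1 := by rw [← mul_pow, hxt, one_pow]
      rw [e5, hsdef]
      linear_combination (t ^ 2 * y * t ^ (d - ((i : ℕ) + 2))) * e6
    rw [e4]
    have h7 := (ht.pow (d - ((i : ℕ) + 2))).mul hs
    rwa [mul_zero] at h7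

end

/-- one scaling of the point `P` for all degrees -/
theorem rho_ex {K : Type} [Field K] [NumberField K] {p : ℕ} [Fact p.Prime] (π : Pl K p) {A B : K} (hA : A ∈ π.V) (hB : B ∈ π.V)
    (P : Pt A B) : ∃ ρ : K, ρ ≠ 0 ∧
      (∀ v : FinitePlace K, (∀ x : K, x ∈ π.V ↔ v x ≤ 1) → v ρ ^ 2 * hv v (opK P) = 1) ∧
      ∀ (d : ℕ) (k : RamCov.Ix d), Rd π (ρ ^ (2 * d) * RamCov.bas K d (opK P) k) (RamCov.bas (ZMod p) d (rdK π P) k) := by
  classical
  rcases P with _ | ⟨x, y, hxy⟩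
  · refine ⟨1, one_ne_zero, fun v _ => by rw [map_one, one_pow, one_mul]; rfl, fun d k => ?_⟩
    rw [one_pow, one_mul]
    rcases k with i | i
    · show Rd π (if i = Fin.last d then 1 else 0) (if i = Fin.last d then 1 else 0)
      by_cases hi : i = Fin.last d
      · rw [if_pos hi, if_pos hi]
        exact Rd.one
      · rw [if_neg hi, if_neg hi]
        exact Rd.zero
    · exact Rd.zero
  · have he : y ^ 2 = x ^ 3 + A * x + B := (EK_eqn A B x y).1 hxy.1
    by_cases hx : x ∈ π.V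
    · have h1 : rdK π (.some x y hxy : Pt A B) = some (res π x, res π y) := by
        unfold rdK
        exact if_pos hx
      rw [h1]
      have hy : y ∈ π.V := (den_xyK π hA hB he).1 hx
      refine ⟨1, one_ne_zero, fun v hv => ?_, fun d k => ?_⟩
      · rw [map_one, one_pow, one_mul]
        exact max_eq_left ((hv x).1 hx)
      · rw [one_pow, one_mul]
        rcases k with i | i
        · show Rd π (x ^ (i : ℕ)) (res π x ^ (i : ℕ))
          exact (rd_res hx).pow _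
        · show Rd π (x ^ (i : ℕ) * y) (res π x ^ (i : ℕ) * res π y)
          exact ((rd_res hx).pow _).mul (rd_res hy)
    · have h1 : rdK π (.some x y hxy : Pt A B) = none := by
        unfold rdK
        exact if_neg hx
      rw [h1]
      obtain ⟨hx0, ht⟩ := W3_inv hx
      have hxt : x * x⁻¹ = 1 := mul_inv_cancel₀ hx0
      have ht0 : x⁻¹ ≠ 0 := inv_ne_zero hx0
      have hv : Rd π (1 + A * (x⁻¹) ^ 2 + B * (x⁻¹) ^ 3) 1 := by
        have h3 := (Rd.one.add ((rd_res hA).mul (ht.pow 2))).add ((rd_res hB).mul (ht.pow 3))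
        simpa using h3
      have hv0 : 1 + A * (x⁻¹) ^ 2 + B * (x⁻¹) ^ 3 ≠ 0 := by
        intro h0
        rw [h0] at hv
        exact one_ne_zero (hv.unique Rd.zero)
      have hsq : (y * (x⁻¹) ^ 2) ^ 2 = x⁻¹ * (1 + A * (x⁻¹) ^ 2 + B * (x⁻¹) ^ 3) := by
        have e1 : (y * (x⁻¹) ^ 2) ^ 2 = y ^ 2 * (x⁻¹) ^ 4 := by ring
        rw [e1, he]
        have e2 : x ^ 3 * (x⁻¹) ^ 4 = x⁻¹ := by
          have : x ^ 3 * (x⁻¹) ^ 4 = (x * x⁻¹) ^ 3 * x⁻¹ := by ring
          rw [this, hxt]; ring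
        have e3 : x * (x⁻¹) ^ 4 = (x⁻¹) ^ 3 := by
          have : x * (x⁻¹) ^ 4 = (x * x⁻¹) * (x⁻¹) ^ 3 := by ring
          rw [this, hxt]; ring
        linear_combination e2 + A * e3
      have hs0 : y * (x⁻¹) ^ 2 ≠ 0 := by
        intro h0
        rw [h0, zero_pow two_ne_zero] at hsq
        exact mul_ne_zero ht0 hv0 hsq.symm
      refine ⟨y * (x⁻¹) ^ 2, hs0, fun v hV => ?_, fun d k => ?_⟩
      · rw [← map_pow, hsq, map_mul, map_inv₀]
        have h5 : 1 < v x := by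
          by_contra hcon
          exact hx ((hV x).2 (not_lt.1 hcon))
        have h6 : v (1 + A * (x⁻¹) ^ 2 + B * (x⁻¹) ^ 3) = 1 := by
          have h7 : v (1 + A * (x⁻¹) ^ 2 + B * (x⁻¹) ^ 3) ≤ 1 := (hV _).1 hv.choose
          refine le_antisymm h7 ?_
          by_contra hcon
          push Not at hcon
          have h8 : (1 + A * (x⁻¹) ^ 2 + B * (x⁻¹) ^ 3)⁻¹ ∉ π.V := by
            rw [hV, map_inv₀, not_le]
            exact (one_lt_inv₀ (FinitePlace.pos_iff.2 hv0)).2 hcon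
          have h9 : π.ρ ⟨_, hv.choose⟩ = 0 := π.ker ⟨_, hv.choose⟩ h8
          rw [hv.choose_spec] at h9
          exact one_ne_zero h9
        rw [h6, mul_one]
        show (v x)⁻¹ * max 1 (v x) = 1
        rw [max_eq_right h5.le]
        exact inv_mul_cancel₀ (by linarith)
      · have e : (y * (x⁻¹) ^ 2) ^ (2 * d) * RamCov.bas K d (opK (.some x y hxy : Pt A B)) k =
            (1 + A * (x⁻¹) ^ 2 + B * (x⁻¹) ^ 3) ^ d * ((x⁻¹) ^ d * RamCov.bas K d (some (x, y)) k) := by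
          rw [pow_mul, hsq, mul_pow]
          show (x⁻¹) ^ d * (1 + A * (x⁻¹) ^ 2 + B * (x⁻¹) ^ 3) ^ d * RamCov.bas K d (some (x, y)) k = _
          ring
        rw [e]
        have h5 := (hv.pow d).mul (W3_red (d := d) hA hB he hx k)
        rw [one_pow, one_mul] at h5
        exact h5

end VU
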