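import Pool.Agent.Lib.MP_17a322_ntVU.GDefs
import Pool.Agent.Lib.MP_17a322_ntVU.W3
import Pool.Agent.Lib.MP_17a322_ntVK.SD5
import Pool.Agent.Lib.MP_17a322_ntVY.VD

/-!
# The integral points satisfy the local conditions
-/

namespace VU

open Finset NumberField LVH VK

private theorem G5_mo {K : Type} [Field K] {m n : ℕ} (c : K) (u : Fin (m + 1) → K) (e : MWS.Mo m n) :
    MWS.mo (fun l => c * u l) e = c ^ n * MWS.mo u e := by
  unfold MWS.mo
  simp only [mul_pow]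
  rw [Finset.prod_mul_distrib, Finset.prod_pow_eq_pow_sum, e.2]

private theorem G5_mo_rd {K : Type} [Field K] {p : ℕ} {π : Pl K p} {m n : ℕ} {u : Fin (m + 1) → K}
    {y : Fin (m + 1) → ZMod p} (h : ∀ l, Rd π (u l) (y l)) (e : MWS.Mo m n) :
    Rd π (MWS.mo u e) (MWS.mo y e) :=
  Rd.prod _ fun l _ => (h l).pow _

private theorem G5_zpow {K : Type} [Field K] {p : ℕ} [Fact p.Prime] {π : Pl K p} {x : K} (h1 : x ∈ π.V) (h2 : x⁻¹ ∈ π.V) (n : ℤ) :
    Rd π (x ^ n) (res π x ^ n) := by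
  have h3 := rd_res h1
  rcases n with n | n
  · show Rd π (x ^ ((n : ℕ) : ℤ)) (res π x ^ ((n : ℕ) : ℤ))
    rw [zpow_natCast, zpow_natCast]
    exact h3.pow n
  · rw [zpow_negSucc, zpow_negSucc, ← inv_pow, ← inv_pow]
    exact (h3.inv h2).pow (n + 1)

/-- the reduction of a section with the exact scaling -/
theorem sec_rd {K : Type} [Field K] {p : ℕ} [Fact p.Prime] (π : Pl K p) {n M g s : ℕ} {ι : Type}
    [Fintype ι] {ν : Fin s → ℕ} {d : Fin s → Fin g → ℕ} (E : Fin s → ι → Fin n → ℤ)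
    {A B : Fin g → K} (a : IxM ι M ν d → K) (a' : IxM ι M ν d → ZMod p)
    (ha : ∀ t, Rd π (a t) (a' t)) (x : Fin n → K) (hx : ∀ l, x l ∈ π.V ∧ (x l)⁻¹ ∈ π.V)
    (P : (l : Fin g) → Pt (A l) (B l)) (ρ : Fin g → K)
    (hρ : ∀ l (d : ℕ) (k : RamCov.Ix d), Rd π (ρ l ^ (2 * d) * RamCov.bas K d (opK (P l)) k)
      (RamCov.bas (ZMod p) d (rdK π (P l)) k)) (u : Fin (M + 1) → K) (c0 : K) (y' : Fin (M + 1) → ZMod p)
    (hR : ∀ l, Rd π (c0 * u l) (y' l)) (j : Fin s) :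
    Rd π (c0 ^ ν j * (∏ l, ρ l ^ (2 * d j l)) * sM E a x (fun l => opK (P l)) u j)
      (sM E a' (fun l => res π (x l)) (fun l => rdK π (P l)) y' j) := by
  have h2 : c0 ^ ν j * (∏ l, ρ l ^ (2 * d j l)) * sM E a x (fun l => opK (P l)) u j =
      ∑ t : MWS.Mo M (ν j) × IxT ι (d j), a ⟨j, t⟩ *
        (MWS.mo (fun l => c0 * u l) t.1 * ((∏ l, x l ^ E j t.2.1 l) *
          ∏ l, (ρ l ^ (2 * d j l) * RamCov.bas K (d j l) (opK (P l)) (t.2.2 l)))) := by
    unfold sM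
    rw [Finset.mul_sum]
    refine Finset.sum_congr rfl fun t _ => ?_
    rw [G5_mo, Finset.prod_mul_distrib]
    unfold bT
    ring
  rw [h2]
  unfold sM
  refine Rd.sum _ fun t _ => (ha ⟨j, t⟩).mul ((G5_mo_rd hR t.1).mul ?_)
  unfold bT
  exact (Rd.prod _ fun l _ => G5_zpow (hx l).1 (hx l).2 _).mul (Rd.prod _ fun l _ => hρ l (d j l) (t.2.2 l))

/-- the element `x` of absolute value one has a residue different from `0` -/
private theorem G5_unit {K : Type} [Field K] [NumberField K] {p : ℕ} [Fact p.Prime] (π : Pl K p) (v : FinitePlace K)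
    (hv : ∀ x : K, x ∈ π.V ↔ v x ≤ 1) {x : K} (hx : v x = 1) : x ∈ π.V ∧ x⁻¹ ∈ π.V ∧ res π x ≠ 0 := by
  have h0 : x ≠ 0 := by
    rintro rfl
    rw [map_zero] at hx
    exact zero_ne_one hx
  have h1 : x ∈ π.V := (hv x).2 hx.le
  have h2 : x⁻¹ ∈ π.V := (hv _).2 (by rw [map_inv₀, hx, inv_one])
  exact ⟨h1, h2, res_ne h0 h1 h2⟩

theorem adm_RG {K : Type} [Field K] [NumberField K] (L : Type) [Field L] [NumberField L] (p0 : ℕ)
    (S0 : Finset (FinitePlace K)) (hp0 : ∀ p : ℕ, p.Prime → p0 ≤ p → ∀ v : FinitePlace K, v (p : K) < 1 → v ∉ S0)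
    {n h g M w s e : ℕ} {κ ι : Type} [Fintype κ] [Fintype ι] (A' B' : Fin h → 𝓞 K) {δ : Fin w → ℕ}
    {d' : Fin w → Fin h → ℕ} (E' : Fin w → κ → Fin n → ℤ) (b : IxM κ M δ d' → 𝓞 K)
    {ν : Fin s → ℕ} {d : Fin s → Fin (h + g) → ℕ} (E : Fin s → ι → Fin n → ℤ)
    (ω : Fin e → 𝓞 K) {A B : Fin (h + g) → K} (hA : ∀ l, A (Fin.castAdd g l) = A' l)
    (hB : ∀ l, B (Fin.castAdd g l) = B' l) (W : Finset (Fin w)) (V R : Finset (Fin s)) (ex : Fin s → ℕ)
    (hex : ∀ j ∈ R, 1 ≤ ex j ∧ ex j ∣ ν j ∧ ∀ l, ex j ∣ 2 * d j l)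
    (c : IxM ι M ν d × Fin e → ℤ) (x : Fin n → Kˣ) (P : (l : Fin (h + g)) → Pt (A l) (B l)) (u : Fin (M + 1) → K)
    (c0 : K) (hc0 : ∀ v : FinitePlace K, v ∉ S0 → (⨆ i, v (c0 * u i)) = 1)
    (t : Fin (h + g) → K) (ht : ∀ v : FinitePlace K, v ∉ S0 → ∀ l, v (t l) ^ 2 * hv v (opK (P l)) = 1)
    (y : Fin (w + s) → Kˣ)
    (hyW : ∀ k, c0 ^ δ k * (∏ l, t (Fin.castAdd g l) ^ (2 * d' k l)) *
      sM E' (fun t => ((b t : 𝓞 K) : K)) (fun l => (x l : K)) (fun l => opK (P (Fin.castAdd g l))) u k =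
      if k ∈ W then (y (Fin.castAdd s k) : K) else 0)
    (hyV : ∀ j ∈ V, c0 ^ ν j * (∏ l, t l ^ (2 * d j l)) *
      sM E (cf ω c) (fun l => (x l : K)) (fun l => opK (P l)) u j = (y (Fin.natAdd w j) : K))
    (hyR : ∀ j ∉ V, j ∈ R → ∃ w' : K, (y (Fin.natAdd w j) : K) * w' ^ ex j =
      sM E (cf ω c) (fun l => (x l : K)) (fun l => opK (P l)) u j)
    (hy0 : ∀ j ∉ V, j ∉ R → sM E (cf ω c) (fun l => (x l : K)) (fun l => opK (P l)) u j = 0) :
    AdmK L p0 (RG A' B' W V R ex E' b ν d E ω) c (Fin.append x y) P := by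
  intro p hp hpp _ π hAB _ hx
  have hF : Fact p.Prime := ⟨hp⟩
  obtain ⟨v, hvp, hvV⟩ := pl_iff K hp π
  have hvS : v ∉ S0 := hp0 p hp hpp v hvp
  have hx1 : ∀ l : Fin n, (x l : K) ∈ π.V ∧ (x l : K)⁻¹ ∈ π.V := by
    intro l
    have h1 := hx (Fin.castAdd (w + s) l)
    rw [Fin.append_left] at h1
    exact h1
  have hy1 : ∀ l : Fin (w + s), (y l : K) ∈ π.V ∧ (y l : K)⁻¹ ∈ π.V := by
    intro l
    have h1 := hx (Fin.natAdd n l)
    rw [Fin.append_right] at h1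
    exact h1
  -- the scaled vector
  have hcu : ∀ i, c0 * u i ∈ π.V := by
    intro i
    rw [hvV, ← hc0 v hvS]
    exact le_ciSup (f := fun i => v (c0 * u i)) (Set.finite_range _).bddAbove i
  obtain ⟨i1, hi1⟩ : ∃ i, v (c0 * u i) = 1 := by
    obtain ⟨i, hi⟩ := exists_eq_ciSup_of_finite (f := fun i => v (c0 * u i))
    exact ⟨i, hi.trans (hc0 v hvS)⟩
  have hy' : (fun i => res π (c0 * u i)) ≠ 0 := by
    intro h0
    exact (G5_unit π v hvV hi1).2.2 (congrFun h0 i1)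
  -- the scalings of the points
  choose ρ hρ0 hρv hρ using fun l => rho_ex π (hAB l).1 (hAB l).2 (P l)
  have hq : ∀ l, v (t l / ρ l) = 1 := by
    intro l
    have h1 := ht v hvS l
    have h2 := hρv l v hvV
    have h3 : v (t l) ^ 2 = v (ρ l) ^ 2 := by
      have h4 : hv v (opK (P l)) ≠ 0 := (hv_pos v _).ne'
      exact mul_right_cancel₀ h4 (h1.trans h2.symm)
    have h5 : v (t l) = v (ρ l) := (pow_left_inj₀ (apply_nonneg v _) (apply_nonneg v _) two_ne_zero).1 h3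
    rw [map_div₀, h5]
    exact div_self (FinitePlace.pos_iff.2 (hρ0 l)).ne'
  have hqr : ∀ l (m : ℕ), Rd π ((t l / ρ l) ^ (2 * m)) ((res π (t l / ρ l) ^ 2) ^ m) := by
    intro l m
    rw [← pow_mul]
    exact (rd_res (G5_unit π v hvV (hq l)).1).pow _
  have hqt : ∀ l (m : ℕ), t l ^ (2 * m) = (t l / ρ l) ^ (2 * m) * ρ l ^ (2 * m) := by
    intro l m
    rw [← mul_pow, div_mul_cancel₀ _ (hρ0 l)]
  have hsec := sec_rd π E (cf ω c) (fun t => ∑ k, ((c (t, k) : ℤ) : ZMod p) * res π ((ω k : 𝓞 K) : K))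
    (fun t => el_rd (fun k => rd_res (int_mem π (ω k))) (fun k => c (t, k))) (fun l => (x l : K)) hx1 P ρ hρ u c0 _
    (fun l => rd_res (hcu l))
  have hsec' := sec_rd π E' (fun t => ((b t : 𝓞 K) : K)) (fun t => res π ((b t : 𝓞 K) : K))
    (fun t => rd_res (int_mem π (b t))) (fun l => (x l : K)) hx1 (fun l => P (Fin.castAdd g l))
    (fun l => ρ (Fin.castAdd g l)) (fun l => hρ _) u c0 _ (fun l => rd_res (hcu l))
  refine ⟨hF, fun l => ?_, fun i => res π (c0 * u i), hy', fun l => res π (t l / ρ l) ^ 2,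
    fun l => pow_ne_zero _ (G5_unit π v hvV (hq l)).2.2, fun k => ?_, fun j hj => ?_, fun j hj hjR => ?_, fun j hj hjR => ?_⟩
  · rw [← hA l, ← hB l]
    exact rd_on π (hAB _).1 (hAB _).2 _
  · simp only [Fin.append_left, Fin.append_right]
    have h1 := (Rd.prod (Finset.univ : Finset (Fin h)) fun l _ => hqr (Fin.castAdd g l) (d' k l)).mul (hsec' k)
    have h2 : (∏ l : Fin h, (t (Fin.castAdd g l) / ρ (Fin.castAdd g l)) ^ (2 * d' k l)) *
        (c0 ^ δ k * (∏ l : Fin h, ρ (Fin.castAdd g l) ^ (2 * d' k l)) *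
          sM E' (fun t => ((b t : 𝓞 K) : K)) (fun l => (x l : K)) (fun l => opK (P (Fin.castAdd g l))) u k) =
        if k ∈ W then (y (Fin.castAdd s k) : K) else 0 := by
      rw [← hyW k]
      simp only [hqt]
      rw [Finset.prod_mul_distrib]
      ring
    rw [h2] at h1
    by_cases hk : k ∈ W
    · rw [if_pos hk] at h1 ⊢
      exact h1.unique (rd_res (hy1 _).1)
    · rw [if_neg hk] at h1 ⊢
      exact h1.unique Rd.zero
  · simp only [Fin.append_left, Fin.append_right]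
    have h1 := (Rd.prod (Finset.univ : Finset (Fin (h + g))) fun l _ => hqr l (d j l)).mul (hsec j)
    have h2 : (∏ l, (t l / ρ l) ^ (2 * d j l)) * (c0 ^ ν j * (∏ l, ρ l ^ (2 * d j l)) *
          sM E (cf ω c) (fun l => (x l : K)) (fun l => opK (P l)) u j) = (y (Fin.natAdd w j) : K) := by
      rw [← hyV j hj]
      simp only [hqt]
      rw [Finset.prod_mul_distrib]
      ring
    rw [h2] at h1
    exact h1.unique (rd_res (hy1 _).1)
  · simp only [Fin.append_left, Fin.append_right]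
    obtain ⟨w', hw'⟩ := hyR j hj hjR
    obtain ⟨h3, ⟨m, hm⟩, h5⟩ := hex j hjR
    choose m' hm' using h5
    have h1 := hsec j
    have h2 : (y (Fin.natAdd w j) : K) * (w' * (c0 ^ m * ∏ l, ρ l ^ m' l)) ^ ex j =
        c0 ^ ν j * (∏ l, ρ l ^ (2 * d j l)) * sM E (cf ω c) (fun l => (x l : K)) (fun l => opK (P l)) u j := by
      rw [mul_pow, mul_pow, ← mul_assoc, hw', ← pow_mul, mul_comm m, ← hm, ← Finset.prod_pow]
      have h6 : ∏ l, (ρ l ^ m' l) ^ ex j = ∏ l, ρ l ^ (2 * d j l) :=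
        Finset.prod_congr rfl fun l _ => by rw [← pow_mul, mul_comm (m' l), ← hm' l]
      rw [h6]
      ring
    exact pow_red h3 (rd_res (hy1 _).1) (res_ne (y _).ne_zero (hy1 _).1 (hy1 _).2) h1 h2
  · simp only [Fin.append_left]
    have h1 := hsec j
    rw [hy0 j hj hjR, mul_zero] at h1
    exact h1.unique Rd.zero

end VU
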