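import Pool.Agent.Lib.MP_17a322_ntVU.U1
import Pool.Agent.Lib.MP_17a322_ntLY.A1

/-!
# Integral linear forms: a nonzero minor at a point over an algebraically closed field of characteristic zero
-/

namespace VU

open MvPolynomial

/-- the linear forms with the coefficients `l` -/
noncomputable def lf {R : Type} [CommRing R] {q r : ℕ} (l : Fin r → Fin q → R) (i : Fin r) : MvPolynomial (Fin q) R :=
  ∑ j, C (l i j) * X j

theorem lf_hom {R : Type} [CommRing R] {q r : ℕ} (l : Fin r → Fin q → R) (i : Fin r) : (lf l i).IsHomogeneous 1 := by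
  refine IsHomogeneous.sum _ _ _ fun j _ => ?_
  have h1 := (isHomogeneous_C (Fin q) (l i j)).mul (isHomogeneous_X R j)
  rwa [zero_add] at h1

theorem lf_map {R S : Type} [CommRing R] [CommRing S] (φ : R →+* S) {q r : ℕ} (l : Fin r → Fin q → R) (i : Fin r) :
    map φ (lf l i) = lf (fun i j => φ (l i j)) i := by
  unfold lf
  simp only [map_sum, map_mul, map_C, map_X]

theorem lf_eval {R : Type} [CommRing R] {q r : ℕ} (l : Fin r → Fin q → R) (i : Fin r) (u : Fin q → R) :
    eval u (lf l i) = ∑ j, l i j * u j := by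
  unfold lf
  simp only [map_sum, map_mul, eval_C, eval_X]

theorem exists_int {F : Type} [Field F] [CharZero F] {σ : Type} (P : MvPolynomial σ F) {x : σ → F} (h : eval x P ≠ 0) :
    ∃ y : σ → ℤ, eval (fun i => ((y i : ℤ) : F)) P ≠ 0 := by
  by_contra hcon
  push Not at hcon
  apply h
  have h1 : P = 0 := by
    refine funext_set (fun _ : σ => Set.range (Int.cast : ℤ → F)) ?_ ?_
    · intro _
      exact Set.infinite_range_of_injective Int.cast_injective
    · intro z hz
      choose y hy using fun i => hz i (Set.mem_univ i)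
      have h2 : z = fun i => ((y i : ℤ) : F) := funext fun i => (hy i).symm
      rw [h2, hcon, map_zero]
  rw [h1, map_zero]

theorem int_mn {F ι : Type} [Field F] [CharZero F] [IsAlgClosed F] {q r : ℕ} (G : ι → MvPolynomial (Fin q) F)
    (l : Fin r → Fin q → F)
    (h : ∀ u : Fin q → F, (∀ k, eval u (G k) = 0) → (∀ i, ∑ j, l i j * u j = 0) → u = 0) :
    ∃ D : ℕ, 1 ≤ D ∧ ∃ (f : Ex q D → Rw (ι ⊕ Fin r) q D) (m : Fin r → Fin q → ℤ),
      mn (Sum.elim G (lf fun i j => ((m i j : ℤ) : F))) f ≠ 0 := by
  classical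
  -- all monomials of a large degree
  have h1 : ∀ b : Fin q, ∃ n : ℕ, (X b : MvPolynomial (Fin q) F) ^ n ∈ Ideal.span (Set.range (Sum.elim G (lf l))) := by
    intro b
    have hr : (X b : MvPolynomial (Fin q) F) ∈ (Ideal.span (Set.range (Sum.elim G (lf l)))).radical := by
      rw [← vanishingIdeal_zeroLocus_eq_radical (K := F), mem_vanishingIdeal_iff]
      intro x hx
      rw [mem_zeroLocus_iff] at hx
      have hx0 : x = 0 := by
        refine h x (fun k => ?_) (fun i => ?_)
        · have := hx _ (Ideal.subset_span ⟨Sum.inl k, rfl⟩)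
          rwa [aeval_eq_eval] at this
        · have := hx _ (Ideal.subset_span ⟨Sum.inr i, rfl⟩)
          rw [aeval_eq_eval] at this
          rw [← lf_eval]
          exact this
      rw [hx0, aeval_X]
      rfl
    exact Ideal.mem_radical_iff.1 hr
  choose n hn using h1
  obtain ⟨N, hN⟩ : ∃ N : ℕ, ∀ b, n b ≤ N := ⟨∑ b, n b, fun b =>
    Finset.single_le_sum (f := n) (fun _ _ => Nat.zero_le _) (Finset.mem_univ b)⟩
  have h2 : ∀ α : Ex q (q * N + 1), monomial (α : Fin q →₀ ℕ) (1 : F) ∈ Ideal.span (Set.range (Sum.elim G (lf l))) := by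
    intro α
    have h3 : ∃ b, N ≤ (α : Fin q →₀ ℕ) b := by
      by_contra hcon
      push Not at hcon
      have h4 := (mem_Ex _).1 α.2
      have h5 : ∑ i, (α : Fin q →₀ ℕ) i ≤ ∑ _i : Fin q, N := Finset.sum_le_sum fun i _ => (hcon i).le
      rw [Finset.sum_const, Finset.card_univ, Fintype.card_fin, smul_eq_mul] at h5
      omega
    obtain ⟨b, hb⟩ := h3
    have h4 : Finsupp.single b (n b) ≤ (α : Fin q →₀ ℕ) := Finsupp.single_le_iff.2 ((hN b).trans hb)
    have h5 : monomial (α : Fin q →₀ ℕ) (1 : F) = monomial ((α : Fin q →₀ ℕ) - Finsupp.single b (n b)) 1 * X b ^ n b := by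
      rw [X_pow_eq_monomial, monomial_mul, tsub_add_cancel_of_le h4, one_mul]
    rw [h5]
    exact Ideal.mul_mem_left _ _ (hn b)
  obtain ⟨f, hf⟩ := exists_mn (Sum.elim G (lf l)) h2
  -- the minor as a polynomial in the coefficients of the linear forms
  set gen : Fin r → Fin q → MvPolynomial (Fin r × Fin q) F := fun i j => X (i, j) with hgen
  have key : ∀ l' : Fin r → Fin q → F, eval (fun x => l' x.1 x.2)
      (mn (Sum.elim (fun k => map (C (σ := Fin r × Fin q)) (G k)) (lf gen)) f) = mn (Sum.elim G (lf l')) f := by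
    intro l'
    have h6 : (eval (fun x : Fin r × Fin q => l' x.1 x.2)).comp (C (σ := Fin r × Fin q) (R := F)) = RingHom.id F :=
      RingHom.ext fun a => eval_C a
    have e1 : (fun ρ => map (eval fun x : Fin r × Fin q => l' x.1 x.2)
        (Sum.elim (fun k => map (C (σ := Fin r × Fin q)) (G k)) (lf gen) ρ)) = Sum.elim G (lf l') := by
      funext ρ
      rcases ρ with k | i
      · rw [Sum.elim_inl, Sum.elim_inl, map_map, h6, map_id]
      · rw [Sum.elim_inr, Sum.elim_inr, lf_map]
        have h7 : (fun i j => (eval fun x : Fin r × Fin q => l' x.1 x.2) (gen i j)) = l' := by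
          funext i j
          rw [hgen]
          exact eval_X _
        rw [h7]
    rw [mn_map, e1]
  obtain ⟨y, hy⟩ := exists_int _ (x := fun x : Fin r × Fin q => l x.1 x.2) (by rw [key l]; exact hf)
  refine ⟨q * N + 1, by omega, f, fun i j => y (i, j), ?_⟩
  rw [← key fun i j => ((y (i, j) : ℤ) : F)]
  exact hy

end VU
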