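import Mathlib

/-!
# The Nullstellensatz over the ring of integers
-/

namespace VU

open MvPolynomial NumberField

private theorem clear {K σ : Type} [Field K] [NumberField K] (p : MvPolynomial σ K) :
    ∃ m : ℕ, m ≠ 0 ∧ ∃ p' : MvPolynomial σ (𝓞 K), map (algebraMap (𝓞 K) K) p' = C (m : K) * p := by
  classical
  obtain ⟨y, hy, hint⟩ := exists_integral_multiples ℤ ℚ (L := K) (p.support.image fun t => coeff t p)
  refine ⟨y.natAbs, Int.natAbs_ne_zero.2 hy, ?_⟩
  have hz : ∀ t, ∃ z : 𝓞 K, algebraMap (𝓞 K) K z = (y.natAbs : K) * coeff t p := by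
    intro t
    by_cases ht : t ∈ p.support
    · have h1 := hint (coeff t p) (Finset.mem_image_of_mem _ ht)
      rcases Int.natAbs_eq y with h | h
      · refine ⟨⟨_, h1⟩, ?_⟩
        change y • coeff t p = _
        rw [zsmul_eq_mul]
        conv_lhs => rw [h]
        rw [Int.cast_natCast]
      · refine ⟨⟨_, h1.neg⟩, ?_⟩
        change -(y • coeff t p) = _
        rw [zsmul_eq_mul]
        conv_lhs => rw [h]
        rw [Int.cast_neg, Int.cast_natCast, neg_mul, neg_neg]
    · refine ⟨0, ?_⟩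
      rw [notMem_support_iff.1 ht, mul_zero, map_zero]
  choose z hz using hz
  refine ⟨∑ t ∈ p.support, monomial t (z t), ?_⟩
  rw [map_sum]
  conv_rhs => rw [p.as_sum, Finset.mul_sum]
  refine Finset.sum_congr rfl fun t _ => ?_
  rw [map_monomial, hz, C_mul_monomial]

/-- a set of polynomials over `𝓞 K` without a common zero over the algebraic closure: a positive integer is a combination
of finitely many of them -/
theorem nulls {K τ : Type} [Field K] [NumberField K] [Finite τ] (S : Set (MvPolynomial τ (𝓞 K)))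
    (h : ∀ c : τ → AlgebraicClosure K, ∃ s ∈ S, eval₂ ((algebraMap K (AlgebraicClosure K)).comp (algebraMap (𝓞 K) K)) c s ≠ 0) :
    ∃ (N0 : ℕ) (T : Finset (MvPolynomial τ (𝓞 K))), N0 ≠ 0 ∧ (T : Set (MvPolynomial τ (𝓞 K))) ⊆ S ∧
      (C ((N0 : ℕ) : 𝓞 K) : MvPolynomial τ (𝓞 K)) ∈ Ideal.span (T : Set (MvPolynomial τ (𝓞 K))) := by
  classical
  set ψ : MvPolynomial τ (𝓞 K) →+* MvPolynomial τ K := map (algebraMap (𝓞 K) K) with hψ
  have hinj : Function.Injective ψ := map_injective _ (FaithfulSMul.algebraMap_injective (𝓞 K) K)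
  have hC : ∀ n : ℕ, ψ (C (n : 𝓞 K)) = C (n : K) := by
    intro n
    rw [hψ, map_C, map_natCast (algebraMap (𝓞 K) K) n]
  -- the ideal over `K`
  have h1 : (1 : MvPolynomial τ K) ∈ Ideal.span (ψ '' S) := by
    have h2 : (1 : MvPolynomial τ K) ∈ (Ideal.span (ψ '' S)).radical := by
      rw [← vanishingIdeal_zeroLocus_eq_radical (K := AlgebraicClosure K), mem_vanishingIdeal_iff]
      intro c hc
      rw [mem_zeroLocus_iff] at hc
      obtain ⟨s, hs, hne⟩ := h c
      refine absurd ?_ hne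
      have h3 := hc (ψ s) (Ideal.subset_span ⟨s, hs, rfl⟩)
      rw [hψ, aeval_def, eval₂_map] at h3
      exact h3
    obtain ⟨n, hn⟩ := Ideal.mem_radical_iff.1 h2
    rwa [one_pow] at hn
  obtain ⟨T', hT', hT1⟩ := Submodule.mem_span_finite_of_mem_span h1
  -- pull the finite set back
  choose! pre hpre1 hpre2 using fun (x : MvPolynomial τ K) (hx : x ∈ ψ '' S) => hx
  set T : Finset (MvPolynomial τ (𝓞 K)) := T'.image pre with hT
  have hTS : (T : Set (MvPolynomial τ (𝓞 K))) ⊆ S := by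
    intro x hx
    obtain ⟨y, hy, rfl⟩ := Finset.mem_image.1 (Finset.mem_coe.1 hx)
    exact hpre1 y (hT' hy)
  have h4 : (1 : MvPolynomial τ K) ∈ Ideal.span (ψ '' (T : Set (MvPolynomial τ (𝓞 K)))) := by
    refine Ideal.span_mono ?_ hT1
    intro x hx
    exact ⟨pre x, Finset.mem_coe.2 (Finset.mem_image_of_mem pre hx), hpre2 x (hT' hx)⟩
  -- clear the denominators
  have h5 : ∀ P ∈ Ideal.span (ψ '' (T : Set (MvPolynomial τ (𝓞 K)))), ∃ m : ℕ, m ≠ 0 ∧
      ∃ P' ∈ Ideal.span (T : Set (MvPolynomial τ (𝓞 K))), ψ P' = C (m : K) * P := by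
    intro P hP
    induction hP using Submodule.span_induction with
    | mem P hP =>
      obtain ⟨P', hP', rfl⟩ := hP
      exact ⟨1, one_ne_zero, P', Ideal.subset_span hP', by rw [Nat.cast_one, C_1, one_mul]⟩
    | zero => exact ⟨1, one_ne_zero, 0, Submodule.zero_mem _, by rw [map_zero, mul_zero]⟩
    | add P Q _ _ h6 h7 =>
      obtain ⟨m, hm, P', hP', e1⟩ := h6
      obtain ⟨n, hn, Q', hQ', e2⟩ := h7
      refine ⟨m * n, mul_ne_zero hm hn, C (n : 𝓞 K) * P' + C (m : 𝓞 K) * Q',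
        Ideal.add_mem _ (Ideal.mul_mem_left _ _ hP') (Ideal.mul_mem_left _ _ hQ'), ?_⟩
      rw [map_add, map_mul, map_mul, e1, e2, hC, hC, Nat.cast_mul, C_mul]
      ring
    | smul a P _ h6 =>
      obtain ⟨m, hm, P', hP', e1⟩ := h6
      obtain ⟨n, hn, a', e2⟩ := clear a
      refine ⟨n * m, mul_ne_zero hn hm, a' * P', Ideal.mul_mem_left _ _ hP', ?_⟩
      rw [map_mul, e1, hψ, e2, smul_eq_mul, Nat.cast_mul, C_mul]
      ring
  obtain ⟨m, hm, P', hP', e1⟩ := h5 1 h4
  refine ⟨m, T, hm, hTS, ?_⟩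
  have e2 : P' = C (m : 𝓞 K) := by
    apply hinj
    rw [e1, mul_one, hC]
  rw [← e2]
  exact hP'

/-- at every point over a field in which the integer does not vanish one of the polynomials does not vanish -/
theorem nulls_pt {K τ : Type} [Field K] [NumberField K] {F : Type} [CommRing F] (φ : 𝓞 K →+* F)
    {N0 : ℕ} {T : Finset (MvPolynomial τ (𝓞 K))}
    (h : (C ((N0 : ℕ) : 𝓞 K) : MvPolynomial τ (𝓞 K)) ∈ Ideal.span (T : Set (MvPolynomial τ (𝓞 K))))
    (hN : ((N0 : ℕ) : F) ≠ 0) (c : τ → F) : ∃ s ∈ T, eval₂ φ c s ≠ 0 := by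
  by_contra hcon
  push Not at hcon
  have h1 : ∀ P ∈ Ideal.span (T : Set (MvPolynomial τ (𝓞 K))), eval₂Hom φ c P = 0 := by
    intro P hP
    have h2 : Ideal.span (T : Set (MvPolynomial τ (𝓞 K))) ≤ RingHom.ker (eval₂Hom φ c) := by
      rw [Ideal.span_le]
      intro s hs
      exact (RingHom.mem_ker).2 (hcon s hs)
    exact (RingHom.mem_ker).1 (h2 hP)
  apply hN
  have h3 := h1 _ h
  rw [coe_eval₂Hom, eval₂_C, map_natCast] at h3
  exact h3

end VU
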