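import Pool.Agent.Lib.MP_17a322_ntVU.U2
import Pool.Agent.Lib.MP_17a322_ntVU.U3
import Pool.Agent.Lib.MP_17a322_ntVU.U4

/-!
# The uniform count: the points over finite fields on the fibres of a family of subschemes of projective space
-/

namespace VU

open MvPolynomial NumberField

/-- the form `G` at the point `c` of the base, with the coefficients mapped by `φ` -/
noncomputable def sp {R k τ : Type} [CommRing R] [CommRing k] {q : ℕ} (φ : R →+* k) (c : τ → k)
    (G : MvPolynomial (Fin q) (MvPolynomial τ R)) : MvPolynomial (Fin q) k := map (eval₂Hom φ c) G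

/-- `f`, `l` integral: the minor as a polynomial on the base -/
noncomputable def mi {R τ : Type} [CommRing R] {t q r : ℕ} (G : Fin t → MvPolynomial (Fin q) (MvPolynomial τ R)) {D : ℕ}
    (f : Ex q D → Rw (Fin t ⊕ Fin r) q D) (m : Fin r → Fin q → ℤ) : MvPolynomial τ R :=
  mn (Sum.elim G (lf fun i j => ((m i j : ℤ) : MvPolynomial τ R))) f

theorem mi_ev {R k τ : Type} [CommRing R] [CommRing k] {t q r : ℕ} (φ : R →+* k) (c : τ → k)
    (G : Fin t → MvPolynomial (Fin q) (MvPolynomial τ R)) {D : ℕ} (f : Ex q D → Rw (Fin t ⊕ Fin r) q D)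
    (m : Fin r → Fin q → ℤ) : eval₂ φ c (mi G f m) = mn (Sum.elim (fun k => sp φ c (G k)) (lf fun i j => ((m i j : ℤ) : k))) f := by
  have h1 : eval₂ φ c (mi G f m) = eval₂Hom φ c (mi G f m) := rfl
  rw [h1]
  unfold mi
  rw [mn_map]
  congr 1
  funext ρ
  rcases ρ with i | i
  · rfl
  · rw [Sum.elim_inr, Sum.elim_inr, lf_map]
    have h2 : (fun i j => (eval₂Hom φ c) ((m i j : ℤ) : MvPolynomial τ R)) = fun i j => ((m i j : ℤ) : k) := by
      funext i j
      exact map_intCast _ _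
    rw [h2]

/-- the number of the points of the fibres -/
theorem cnt {F : Type} [Field F] [Finite F] {ι : Type} {q r D : ℕ} (hD : 1 ≤ D) (G : ι → MvPolynomial (Fin q) F) (μ : ι → ℕ)
    (hG : ∀ k, (G k).IsHomogeneous (μ k)) (m : Fin r → Fin q → F) (f : Ex q D → Rw (ι ⊕ Fin r) q D)
    (hf : mn (Sum.elim G (lf m)) f ≠ 0) :
    Nat.card {u : Fin q → F // ∀ k, eval u (G k) = 0} ≤ D ^ q * Nat.card F ^ r := by
  classical
  have := Fintype.ofFinite F
  set S : Finset (Fin q → F) := Finset.univ.filter fun u => ∀ k, eval u (G k) = 0 with hS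
  have h0 : Nat.card {u : Fin q → F // ∀ k, eval u (G k) = 0} = S.card := by
    rw [Nat.card_eq_fintype_card, Fintype.card_subtype]
  rw [h0, Nat.card_eq_fintype_card]
  have h1 : ∀ lam ∈ (Finset.univ : Finset (Fin r → F)), (S.filter fun u => (fun i => eval u (lf m i)) = lam).card ≤ D ^ q := by
    intro lam _
    refine fib_le hD G μ hG (lf m) (lf_hom m) f hf lam _ fun u hu => ?_
    rw [Finset.mem_filter, hS, Finset.mem_filter] at hu
    exact ⟨hu.1.2, fun i => congrFun hu.2 i⟩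
  have h2 := Finset.card_le_mul_card_image_of_maps_to (s := S) (t := (Finset.univ : Finset (Fin r → F)))
    (f := fun u i => eval u (lf m i)) (fun _ _ => Finset.mem_univ _) (D ^ q) h1
  rwa [Finset.card_univ, Fintype.card_fun, Fintype.card_fin] at h2

theorem unif {K : Type} [Field K] [NumberField K] {τ : Type} [Finite τ] {t q r : ℕ} (E : Set (MvPolynomial τ (𝓞 K)))
    (G : Fin t → MvPolynomial (Fin q) (MvPolynomial τ (𝓞 K))) (μ : Fin t → ℕ) (hG : ∀ k, (G k).IsHomogeneous (μ k))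
    (h : ∀ c : τ → AlgebraicClosure K,
      (∀ e ∈ E, eval₂ ((algebraMap K (AlgebraicClosure K)).comp (algebraMap (𝓞 K) K)) c e = 0) →
      ∃ l : Fin r → Fin q → AlgebraicClosure K, ∀ u : Fin q → AlgebraicClosure K,
        (∀ k, eval u (sp ((algebraMap K (AlgebraicClosure K)).comp (algebraMap (𝓞 K) K)) c (G k)) = 0) →
        (∀ i, ∑ j, l i j * u j = 0) → u = 0) :
    ∃ C N0 : ℕ, N0 ≠ 0 ∧ ∀ (F : Type) [Field F] [Finite F] (φ : 𝓞 K →+* F), ((N0 : ℕ) : F) ≠ 0 → ∀ c : τ → F,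
      (∀ e ∈ E, eval₂ φ c e = 0) →
      Nat.card {u : Fin q → F // ∀ k, eval u (sp φ c (G k)) = 0} ≤ C * Nat.card F ^ r := by
  classical
  set M : Set (MvPolynomial τ (𝓞 K)) := {s | ∃ D : ℕ, 1 ≤ D ∧ ∃ (f : Ex q D → Rw (Fin t ⊕ Fin r) q D)
    (m : Fin r → Fin q → ℤ), s = mi G f m} with hM
  obtain ⟨N0, T, hN0, hT, hspan⟩ := nulls (E ∪ M) (by
    intro c
    by_cases hc : ∀ e ∈ E, eval₂ ((algebraMap K (AlgebraicClosure K)).comp (algebraMap (𝓞 K) K)) c e = 0
    · obtain ⟨l, hl⟩ := h c hc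
      obtain ⟨D, hD, f, m, hf⟩ := int_mn _ l hl
      refine ⟨mi G f m, Or.inr ⟨D, hD, f, m, rfl⟩, ?_⟩
      rw [mi_ev]
      exact hf
    · push Not at hc
      obtain ⟨e, he, hne⟩ := hc
      exact ⟨e, Or.inl he, hne⟩)
  -- the constant for one polynomial
  have h1 : ∀ s ∈ T, ∃ C : ℕ, ∀ (F : Type) [Field F] [Finite F] (φ : 𝓞 K →+* F) (c : τ → F),
      (∀ e ∈ E, eval₂ φ c e = 0) → eval₂ φ c s ≠ 0 →
      Nat.card {u : Fin q → F // ∀ k, eval u (sp φ c (G k)) = 0} ≤ C * Nat.card F ^ r := by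
    intro s hs
    rcases hT (Finset.mem_coe.2 hs) with h2 | ⟨D, hD, f, m, rfl⟩
    · exact ⟨0, fun F _ _ φ c hc hne => absurd (hc s h2) hne⟩
    · refine ⟨D ^ q, fun F _ _ φ c hc hne => ?_⟩
      rw [mi_ev] at hne
      exact cnt hD _ μ (fun k => (hG k).map _) _ f hne
  choose! C hC using h1
  refine ⟨∑ s ∈ T, C s, N0, hN0, fun F _ _ φ hφ c hc => ?_⟩
  obtain ⟨s, hs, hne⟩ := nulls_pt φ hspan hφ c
  refine (hC s hs F φ c hc hne).trans (Nat.mul_le_mul_right _ ?_)
  exact Finset.single_le_sum (f := C) (fun _ _ => Nat.zero_le _) hs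

end VU
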