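import Pool.Agent.Lib.MP_17a322_ntVU.G4
import Pool.Agent.Lib.MP_17a322_ntVU.G5
import Pool.Agent.Lib.MP_17a322_ntVY.VG
import Pool.Agent.Lib.MP_17a322_ntVB.BJ2
import Pool.Agent.Lib.MP_17a322_ntLH.F8

/-!
# Integral points on pairs whose log irregularity is at least the dimension, supersingular primes
-/

namespace VU

open Finset NumberField LVH VK

/-- a finite place over a prime number -/
private theorem G6_place (K : Type) [Field K] [NumberField K] {p : ℕ} (hp : p.Prime) :
    ∃ v : FinitePlace K, v (p : K) < 1 := by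
  classical
  have hpI : Prime (p : ℤ) := Nat.prime_iff_prime_int.1 hp
  have hm : (Ideal.span {(p : ℤ)}).IsMaximal :=
    PrincipalIdealRing.isMaximal_of_irreducible hpI.irreducible
  obtain ⟨Q, hQ1, hQ2⟩ := Ideal.exists_maximal_ideal_liesOver_of_isIntegral (S := 𝓞 K) (Ideal.span {(p : ℤ)})
  have hmem : ((p : ℕ) : 𝓞 K) ∈ Q := by
    have h1 : (p : ℤ) ∈ Q.under ℤ := by
      rw [← hQ2.over]
      exact Ideal.mem_span_singleton_self _
    have h2 : algebraMap ℤ (𝓞 K) (p : ℤ) ∈ Q := h1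
    rwa [map_natCast] at h2
  have hne : Q ≠ ⊥ := by
    rintro rfl
    rw [Ideal.mem_bot, Nat.cast_eq_zero] at hmem
    exact hp.ne_zero hmem
  let P : IsDedekindDomain.HeightOneSpectrum (𝓞 K) := ⟨Q, hQ1.isPrime, hne⟩
  refine ⟨FinitePlace.mk P, ?_⟩
  have h3 := (FinitePlace.norm_lt_one_iff_mem K P ((p : ℕ) : 𝓞 K)).2 hmem
  rw [map_natCast (algebraMap (𝓞 K) K)] at h3
  rw [FinitePlace.mk_apply]
  exact h3

/-- the places of `S` are over small primes -/
private theorem G6_far (K : Type) [Field K] [NumberField K] (S : Finset (FinitePlace K)) : ∃ p0 : ℕ, ∀ p : ℕ, p.Prime →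
    p0 ≤ p → ∀ v : FinitePlace K, v (p : K) < 1 → v ∉ S := by
  obtain ⟨M0, hM0, hM⟩ := exists_M0 K S
  refine ⟨M0 + 1, fun p hp hpM v hv hvS => ?_⟩
  have h1 := hM v hvS
  have h2 := place_coprime K v hp hv (m := M0) (fun h => by
    have := Nat.le_of_dvd (Nat.pos_of_ne_zero hM0) h
    omega)
  rw [h2] at h1
  exact lt_irrefl _ h1

private theorem G6_hv {K : Type} [Field K] [NumberField K] (v : FinitePlace K) (P : Option (K × K)) :
    hv v P = max 1 (v (P.elim 0 Prod.fst)) := by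
  rcases P with _ | z
  · show (1 : ℝ) = max 1 (v 0)
    rw [map_zero]
    exact (max_eq_left zero_le_one).symm
  · rfl

/-- the scaled section has absolute value one -/
private theorem G6_one {K : Type} [Field K] [NumberField K] (v : FinitePlace K) {g M : ℕ} (μ : ℕ) (d : Fin g → ℕ)
    (P : Fin g → Option (K × K)) (u : Fin (M + 1) → K) (c0 : K) (hc : (⨆ i, v (c0 * u i)) = 1) (t : Fin g → K)
    (ht : ∀ l, v (t l) ^ 2 * hv v (P l) = 1) (F : K) (hF : v F = VK.lf v μ d P u) :
    v (c0 ^ μ * (∏ l, t l ^ (2 * d l)) * F) = 1 := by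
  have h1 : v c0 * (⨆ i, v (u i)) = 1 := by
    rw [← hc, Real.mul_iSup_of_nonneg (apply_nonneg v c0)]
    simp only [map_mul]
  rw [map_mul, map_mul, map_pow, map_prod, hF]
  unfold VK.lf
  have h2 : ∀ l, v (t l ^ (2 * d l)) * max 1 (v ((P l).elim 0 Prod.fst)) ^ d l = 1 := by
    intro l
    rw [← G6_hv, map_pow, pow_mul, ← mul_pow, ht l, one_pow]
  calc v c0 ^ μ * (∏ l, v (t l ^ (2 * d l))) * ((⨆ i, v (u i)) ^ μ * ∏ l, max 1 (v ((P l).elim 0 Prod.fst)) ^ d l) =
        (v c0 * ⨆ i, v (u i)) ^ μ * ∏ l, (v (t l ^ (2 * d l)) * max 1 (v ((P l).elim 0 Prod.fst)) ^ d l) := by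
          rw [mul_pow, Finset.prod_mul_distrib]
          ring
    _ = 1 := by
          rw [h1, one_pow, one_mul]
          exact Finset.prod_eq_one fun l _ => h2 l

theorem inter_LG (K : Type) [Field K] [NumberField K] [DecidableEq K] (hFR : FactRK K) (hFQ : MWS.FactQ) (L : Type)
    [Field L] [NumberField L] [Algebra K L] {J : ℕ → Prop} (hJ : Mean L J) : ∃ c : ℝ, 0 < c ∧
    ∀ (n h r M w : ℕ) (κ : Type) [Fintype κ] (δ : Fin w → ℕ) (d' : Fin w → Fin h → ℕ) (A' B' : Fin h → 𝓞 K)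
    (E' : Fin w → κ → Fin n → ℤ) (b : IxM κ M δ d' → 𝓞 K), (∀ l, ds (A' l) (B' l) ≠ 0) →
    (∃ p1 : ℕ, Ssg L J p1 A' B') → FibP A' B' E' b r → ∃ ν0 : ℕ, ∀ (Γ : Subgroup Kˣ), Γ.FG →
    ∀ (S : Finset (FinitePlace K)) (e : ℕ) (ω : Module.Basis (Fin e) ℤ (𝓞 K)) (g s : ℕ) (ι : Type) [Fintype ι]
    [DecidableEq ι] [Nonempty ι] (ν : Fin s → ℕ) (E : Fin s → ι → Fin n → ℤ) (d : Fin s → Fin (h + g) → ℕ)
    (W : Finset (Fin w)) (V R : Finset (Fin s)) (ex : Fin s → ℕ), (∀ k ∈ W, 1 ≤ δ k) →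
    (∀ j ∈ R, 1 ≤ ex j ∧ ex j ∣ ν j ∧ ∀ l, ex j ∣ 2 * d j l) →
    r + Set.finrank ℤ (clD W V δ d' ν d) + (R \ V).card ≤ s + 1 →
    ((∃ j, (ν0 ≤ ν j ∨ M = 0) ∧ (j ∈ V → ∃ N : ℕ, 1 ≤ N ∧
      (N : ℤ) • cl (d j) (ν j) ∈ Submodule.span ℤ (clD W (V.erase j) δ d' ν d)) ∧
      (j ∉ V → j ∈ R → ∃ q : ℕ, q.Prime ∧ q ∣ ex j ∧ ∃ ζ : L, IsPrimitiveRoot ζ q)) ∨
      (w = 0 ∧ V = ∅ ∧ R = ∅ ∧ M ≤ s ∧ (∀ j, 1 ≤ ν j) ∧ M + 1 ≤ ∑ j, ν j)) → ∃ C : ℝ, ∀ H : ℕ, 1 ≤ H →
    (Nat.card {z : Cv e g × (IxM ι M ν d × Fin e → ℤ) // Box ω H z ∧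
      IntQ Γ S W V R ex E' (fun t => ((b t : 𝓞 K) : K)) E (aA ω A' z.1) (aB ω B' z.1) (cf ω z.2)} : ℝ) ≤
      C * (H : ℝ) ^ (e * (Fintype.card (IxM ι M ν d) + 5 * g)) * Real.exp (-(Real.log H) ^ c) := by
  classical
  obtain ⟨c, hc, hcore⟩ := coreV K hFR hFQ L hJ
  refine ⟨c, hc, fun n h r M w κ _ δ d' A' B' E' b hdd hss hFP => ?_⟩
  obtain ⟨ν0, κ0, hκ0, hκ1, hden⟩ := dens_RG K A' B' E' b (fib_of hFP)
  refine ⟨ν0, fun Γ hΓ S e ω g s ι _ _ _ ν E d W V R ex hW hex hr hi => ?_⟩
  obtain ⟨S0, hSS, hS0⟩ := scale K S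
  obtain ⟨p2, hp2⟩ := G6_far K S0
  obtain ⟨v1, hv1⟩ : ∃ v : FinitePlace K, v ∉ S0 := by
    obtain ⟨p, hp, hpp⟩ := Nat.exists_infinite_primes p2
    obtain ⟨v, hv⟩ := G6_place K hpp
    exact ⟨v, hp2 p hpp hp v hv⟩
  have hΓ' : (Γ ⊔ Su S0).FG := hΓ.sup (Su_fg S0)
  obtain ⟨p0, hp0⟩ := hden L g s e ι ν d E ω W V R ex hW (fun j hj => (hex j hj).2.1) hr hi
  obtain ⟨p1, hp1⟩ := hss
  obtain ⟨C, hC⟩ := hcore e ω (Γ ⊔ Su S0) hΓ' (n + (w + s)) h g A' B' hdd p1 hp1 (max p0 p2)
    (Fintype.card (IxM ι M ν d × Fin e)) κ0 hκ0 hκ1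
  refine ⟨C, fun H hH => ?_⟩
  have h1 := hC H hH (IxM ι M ν d × Fin e) rfl (RG A' B' W V R ex E' b ν d E ω)
    (fun p hp hpp => hp0 p hp ((le_max_left _ _).trans hpp))
  have e1 : Fintype.card (IxM ι M ν d × Fin e) + 5 * e * g = e * (Fintype.card (IxM ι M ν d) + 5 * g) := by
    rw [Fintype.card_prod, Fintype.card_fin]
    ring
  rw [e1] at h1
  refine le_trans ?_ h1
  have h2 := box_le (⇑ω) H
    (fun z : Cv e g × (IxM ι M ν d × Fin e → ℤ) =>
      IntQ Γ S W V R ex E' (fun t => ((b t : 𝓞 K) : K)) E (aA ω A' z.1) (aB ω B' z.1) (cf ω z.2))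
    (fun z => ∃ x : Fin (n + (w + s)) → Kˣ, (∀ l, x l ∈ Γ ⊔ Su S0) ∧
      ∃ P : (l : Fin (h + g)) → Pt (aA ω A' z.1 l) (aB ω B' z.1 l),
        AdmK L (max p0 p2) (RG A' B' W V R ex E' b ν d E ω) (A := aA ω A' z.1) (B := aB ω B' z.1) z.2 x P)
    (by
      rintro z hz ⟨x, hx, P, u, hP, hu, hY0, hV0, hR, hS⟩
      have hds : ∀ l, ds (aA ω A' z.1 l) (aB ω B' z.1 l) ≠ 0 := by
        intro l
        refine Fin.addCases (fun i h0 => ?_) (fun i h0 => ?_) l
        · refine hdd i ?_
          apply RingOfIntegers.coe_injective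
          rw [map_zero]
          rw [← h0]
          simp only [ds, aA, aB, Fin.append_left, map_add, map_mul, map_pow, map_ofNat]
        · refine (hz.1 i).1 ?_
          apply RingOfIntegers.coe_injective
          rw [map_zero]
          rw [← h0]
          simp only [ds, aA, aB, Fin.append_right, cA, cB, map_add, map_mul, map_pow, map_ofNat]
      -- the scalings
      obtain ⟨c0, -, hc0⟩ := hS0 (Fin (M + 1)) u hu
      have htt : ∀ l, ∃ t : K, t ≠ 0 ∧ ∀ v : FinitePlace K, v ∉ S0 → v t ^ 2 * hv v (P l) = 1 := by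
        intro l
        have h3 := hP l
        revert h3
        refine Fin.addCases (fun i => ?_) (fun i => ?_) l
        · intro h3
          rw [aA, aB, Fin.append_left, Fin.append_left] at h3
          exact tt_ex hS0 _ h3
        · intro h3
          rw [aA, aB, Fin.append_right, Fin.append_right] at h3
          exact tt_ex hS0 _ h3
      choose t ht0 ht using htt
      -- the units
      obtain ⟨UW, hUW⟩ : ∃ UW : Fin w → K, UW = fun k => c0 ^ δ k * (∏ l, t (Fin.castAdd g l) ^ (2 * d' k l)) *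
        sM E' (fun t => ((b t : 𝓞 K) : K)) (fun l => (x l : K)) (fun l => P (Fin.castAdd g l)) u k := ⟨_, rfl⟩
      obtain ⟨UV, hUV⟩ : ∃ UV : Fin s → K, UV = fun j => c0 ^ ν j * (∏ l, t l ^ (2 * d j l)) *
        sM E (cf ω z.2) (fun l => (x l : K)) P u j := ⟨_, rfl⟩
      have hUW1 : ∀ k ∈ W, ∀ v : FinitePlace K, v ∉ S0 → v (UW k) = 1 := by
        intro k hk v hv
        rw [hUW]
        exact G6_one v (δ k) (d' k) (fun l => P (Fin.castAdd g l)) u c0 (hc0 v hv) (fun l => t (Fin.castAdd g l))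
          (fun l => ht _ v hv) _ ((hS v fun h3 => hv (hSS h3)).1 k hk)
      have hUV1 : ∀ j ∈ V, ∀ v : FinitePlace K, v ∉ S0 → v (UV j) = 1 := by
        intro j hj v hv
        rw [hUV]
        exact G6_one v (ν j) (d j) P u c0 (hc0 v hv) t (fun l => ht _ v hv) _ ((hS v fun h3 => hv (hSS h3)).2 j hj)
      have hne : ∀ a : K, (∀ v : FinitePlace K, v ∉ S0 → v a = 1) → a ≠ 0 := by
        rintro a ha rfl
        have h3 := ha v1 hv1
        rw [map_zero] at h3
        exact zero_ne_one h3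
      have hyex : ∀ l : Fin (w + s), ∃ y : Kˣ, y ∈ Γ ⊔ Su S0 ∧
          (∀ k, l = Fin.castAdd s k → k ∈ W → (y : K) = UW k) ∧
          (∀ j, l = Fin.natAdd w j → j ∈ V → (y : K) = UV j) ∧
          ∀ j, l = Fin.natAdd w j → j ∉ V → j ∈ R → ∃ w' : K, (y : K) * w' ^ ex j =
            sM E (cf ω z.2) (fun l => (x l : K)) P u j := by
        intro l
        refine Fin.addCases (fun k => ?_) (fun j => ?_) l
        · by_cases hk : k ∈ W
          · refine ⟨Units.mk0 (UW k) (hne _ (hUW1 k hk)), Subgroup.mem_sup_right (fun v hv => hUW1 k hk v hv),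
              fun k' hk' _ => ?_, fun j hj => ?_, fun j hj => ?_⟩
            · have h3 := Fin.castAdd_inj.1 hk'
              subst h3
              rfl
            · exact absurd hj (by
                intro h3
                have h4 := congrArg Fin.val h3
                rw [Fin.val_castAdd, Fin.val_natAdd] at h4
                omega)
            · exact absurd hj (by
                intro h3
                have h4 := congrArg Fin.val h3
                rw [Fin.val_castAdd, Fin.val_natAdd] at h4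
                omega)
          · refine ⟨1, Subgroup.one_mem _, fun k' hk' hk'' => ?_, fun j hj => ?_, fun j hj => ?_⟩
            · rw [Fin.castAdd_inj.1 hk'] at hk
              exact absurd hk'' hk
            · exact absurd hj (by
                intro h3
                have h4 := congrArg Fin.val h3
                rw [Fin.val_castAdd, Fin.val_natAdd] at h4
                omega)
            · exact absurd hj (by
                intro h3
                have h4 := congrArg Fin.val h3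
                rw [Fin.val_castAdd, Fin.val_natAdd] at h4
                omega)
        · have hnk : ∀ k : Fin w, Fin.natAdd w j ≠ Fin.castAdd s k := by
            intro k h3
            have h4 := congrArg Fin.val h3
            rw [Fin.val_castAdd, Fin.val_natAdd] at h4
            omega
          by_cases hj : j ∈ V
          · refine ⟨Units.mk0 (UV j) (hne _ (hUV1 j hj)), Subgroup.mem_sup_right (fun v hv => hUV1 j hj v hv),
              fun k' hk' => absurd hk' (hnk k'), fun j' hj' _ => ?_, fun j' hj' hj'' => ?_⟩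
            · have h3 := (Fin.natAdd_inj w).1 hj'
              subst h3
              rfl
            · rw [(Fin.natAdd_inj w).1 hj'] at hj
              exact absurd hj hj''
          · by_cases hjR : j ∈ R
            · obtain ⟨γ, hγ, w', hw'⟩ := hR j hjR
              refine ⟨γ, Subgroup.mem_sup_left hγ, fun k' hk' => absurd hk' (hnk k'), fun j' hj' hj'' => ?_,
                fun j' hj' _ _ => ?_⟩
              · rw [(Fin.natAdd_inj w).1 hj'] at hj
                exact absurd hj'' hj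
              · rw [← (Fin.natAdd_inj w).1 hj']
                exact ⟨w', hw'.symm⟩
            · refine ⟨1, Subgroup.one_mem _, fun k' hk' => absurd hk' (hnk k'), fun j' hj' hj'' => ?_,
                fun j' hj' _ hj'' => ?_⟩
              · rw [(Fin.natAdd_inj w).1 hj'] at hj
                exact absurd hj'' hj
              · rw [(Fin.natAdd_inj w).1 hj'] at hjR
                exact absurd hj'' hjR
      choose y hy1 hy2 hy3 hy4 using hyex
      obtain ⟨Q, hQ⟩ := (pt_iff hds (fun P' => P' = P)).1 ⟨P, hP, rfl⟩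
      subst hQ
      refine ⟨Fin.append x y, fun l => ?_, Q, ?_⟩
      · refine Fin.addCases (fun i => ?_) (fun i => ?_) l
        · rw [Fin.append_left]
          exact Subgroup.mem_sup_left (hx i)
        · rw [Fin.append_right]
          exact hy1 i
      · refine adm_RG L (max p0 p2) S0 (fun p hp hpp v hv => hp2 p hp ((le_max_right _ _).trans hpp) v hv) A' B' E' b E ω
          (fun l => by simp only [aA, Fin.append_left]) (fun l => by simp only [aB, Fin.append_left]) W V R ex hex z.2 x Q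
          u c0 hc0 t (fun v hv l => ht l v hv) y (fun k => ?_) (fun j hj => ?_) (fun j hj hjR => ?_) (fun j hj hjR => ?_)
        · by_cases hk : k ∈ W
          · rw [if_pos hk, hy2 _ k rfl hk, hUW]
          · rw [if_neg hk, hY0 k hk, mul_zero]
        · rw [hy3 _ j rfl hj, hUV]
        · exact hy4 _ j rfl hj hjR
        · exact hV0 j hj hjR)
  exact_mod_cast h2

end VU
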