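import Mathlib

/-!
# The classes of the components of the divisor
-/

namespace VU

open Finset

/-- the class of a section: its degrees on the curves and on the projective space -/
def cl {g : ℕ} (d : Fin g → ℕ) (ν : ℕ) : Fin g ⊕ Unit → ℤ := Sum.elim (fun l => (d l : ℤ)) (fun _ => (ν : ℤ))

/-- the classes of the sections in `W` (they do not depend on the last `g` curves) and in `V` -/
def clD {h g w s : ℕ} (W : Finset (Fin w)) (V : Finset (Fin s)) (δ : Fin w → ℕ) (d' : Fin w → Fin h → ℕ)
    (ν : Fin s → ℕ) (d : Fin s → Fin (h + g) → ℕ) : Set (Fin (h + g) ⊕ Unit → ℤ) :=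
  {c | (∃ k ∈ W, c = cl (Fin.append (d' k) (0 : Fin g → ℕ)) (δ k)) ∨ ∃ j ∈ V, c = cl (d j) (ν j)}

end VU
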