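import Pool.Agent.Lib.MP_17a322_ntVU.W1
import Pool.Agent.Lib.MP_17a322_ntLH.F1
import Pool.Agent.Lib.MP_17a322_ntVK.Stmt

/-!
# The denominators of the points of an elliptic curve
-/

namespace VU

open NumberField VK

/-- the size of a point at the place `v` -/
noncomputable def hv {K : Type} [Field K] [NumberField K] (v : FinitePlace K) : Option (K × K) → ℝ
  | none => 1
  | some z => max 1 (v z.1)

theorem hv_pos {K : Type} [Field K] [NumberField K] (v : FinitePlace K) (P : Option (K × K)) : 0 < hv v P := by
  rcases P with _ | z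
  · exact one_pos
  · exact lt_of_lt_of_le one_pos (le_max_left _ _)

theorem fp_int {K : Type} [Field K] [NumberField K] (v : FinitePlace K) (a : 𝓞 K) : v (a : K) ≤ 1 := by
  rw [← FinitePlace.norm_embedding_eq]
  exact FinitePlace.norm_le_one K v.maximalIdeal a

/-- the two coordinates of a point -/
theorem fp_xy {K : Type} [Field K] [NumberField K] (v : FinitePlace K) {A B : 𝓞 K} {X Y : K}
    (h : Y ^ 2 = X ^ 3 + (A : K) * X + (B : K)) :
    (v X ≤ 1 ∧ v Y ≤ 1) ∨ (1 < v X ∧ v Y ^ 2 = v X ^ 3) := by
  have hA := fp_int v A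
  have hB := fp_int v B
  have h0 : 0 ≤ v X := apply_nonneg v X
  rcases le_or_gt (v X) 1 with hX | hX
  · left
    refine ⟨hX, ?_⟩
    have h1 : v (Y ^ 2) ≤ 1 := by
      rw [h]
      refine (FinitePlace.add_le v _ _).trans (max_le ((FinitePlace.add_le v _ _).trans (max_le ?_ ?_)) hB)
      · rw [map_pow]
        exact pow_le_one₀ h0 hX
      · rw [map_mul]
        exact mul_le_one₀ hA h0 hX
    rw [map_pow] at h1
    exact (pow_le_one_iff_of_nonneg (apply_nonneg v Y) two_ne_zero).1 h1
  · right
    refine ⟨hX, ?_⟩
    have h1 : v ((A : K) * X + (B : K)) < v (X ^ 3) := by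
      have h2 : v ((A : K) * X + (B : K)) ≤ v X := by
        refine (FinitePlace.add_le v _ _).trans (max_le ?_ (hB.trans hX.le))
        rw [map_mul]
        exact mul_le_of_le_one_left h0 hA
      refine h2.trans_lt ?_
      rw [map_pow]
      exact lt_self_pow₀ hX (by norm_num)
    have h2 : v (Y ^ 2) = v (X ^ 3) := by
      rw [h, add_assoc]
      refine le_antisymm ((FinitePlace.add_le v _ _).trans (max_le le_rfl h1.le)) ?_
      by_contra hcon
      push Not at hcon
      have h3 : v (X ^ 3) ≤ max (v (X ^ 3 + ((A : K) * X + (B : K)))) (v ((A : K) * X + (B : K))) := by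
        have h4 := FinitePlace.add_le v (X ^ 3 + ((A : K) * X + (B : K))) (-((A : K) * X + (B : K)))
        rw [add_neg_cancel_right] at h4
        have h5 : v (-((A : K) * X + (B : K))) = v ((A : K) * X + (B : K)) := map_neg_eq_map v _
        rwa [h5] at h4
      exact absurd h3 (not_le.2 (max_lt hcon h1))
    rw [map_pow, map_pow] at h2
    exact h2

theorem tt_ex {K : Type} [Field K] [NumberField K] {S0 : Finset (FinitePlace K)}
    (hS : ∀ (ι : Type) [Fintype ι] (x : ι → K), x ≠ 0 → ∃ l : K, l ≠ 0 ∧
      ∀ v : FinitePlace K, v ∉ S0 → (⨆ i, v (l * x i)) = 1) {A B : 𝓞 K} (P : Option (K × K))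
    (hP : IsPt (A : K) (B : K) P) : ∃ t : K, t ≠ 0 ∧ ∀ v : FinitePlace K, v ∉ S0 → v t ^ 2 * hv v P = 1 := by
  rcases P with _ | ⟨X, Y⟩
  · exact ⟨1, one_ne_zero, fun v _ => by rw [map_one, one_pow, one_mul]; rfl⟩
  · have h : Y ^ 2 = X ^ 3 + (A : K) * X + (B : K) := hP
    obtain ⟨a, ha0, ha⟩ := hS (Fin 2) ![1, X] (fun h0 => one_ne_zero (congrFun h0 0))
    obtain ⟨b, hb0, hb⟩ := hS (Fin 3) ![1, X, Y] (fun h0 => one_ne_zero (congrFun h0 0))
    refine ⟨b / a, div_ne_zero hb0 ha0, fun v hvS => ?_⟩
    have h0 : 0 ≤ v X := apply_nonneg v X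
    have hva : 0 < v a := FinitePlace.pos_iff.2 ha0
    have hvb : 0 < v b := FinitePlace.pos_iff.2 hb0
    have h1 : v a * max 1 (v X) = 1 := by
      have h2 := ha v hvS
      have h3 : (⨆ i, v (a * (![1, X] : Fin 2 → K) i)) = v a * max 1 (v X) := by
        refine le_antisymm (ciSup_le fun i => ?_) ?_
        · rw [map_mul]
          refine mul_le_mul_of_nonneg_left ?_ hva.le
          fin_cases i
          · show v (1 : K) ≤ _
            rw [map_one]
            exact le_max_left _ _
          · exact le_max_right _ _
        · rcases le_total (v X) 1 with h5 | h5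
          · rw [max_eq_left h5, mul_one]
            have h6 := le_ciSup (f := fun i => v (a * (![1, X] : Fin 2 → K) i)) (Set.finite_range _).bddAbove 0
            refine le_trans (le_of_eq ?_) h6
            show v a = v (a * 1)
            rw [mul_one]
          · rw [max_eq_right h5]
            have h6 := le_ciSup (f := fun i => v (a * (![1, X] : Fin 2 → K) i)) (Set.finite_range _).bddAbove 1
            refine le_trans (le_of_eq ?_) h6
            show v a * v X = v (a * X)
            rw [map_mul]
      rw [← h3]
      exact h2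
    have h4 : v b ^ 2 * max 1 (v X) ^ 3 = 1 := by
      have h2 := hb v hvS
      have h3 : (⨆ i, v (b * (![1, X, Y] : Fin 3 → K) i)) ^ 2 = v b ^ 2 * max 1 (v X) ^ 3 := by
        rcases fp_xy v h with ⟨h5, h6⟩ | ⟨h5, h6⟩
        · rw [max_eq_left h5, one_pow, mul_one]
          congr 1
          refine le_antisymm (ciSup_le fun i => ?_) ?_
          · rw [map_mul]
            refine mul_le_of_le_one_right hvb.le ?_
            fin_cases i
            · show v (1 : K) ≤ 1
              rw [map_one]
            · exact h5
            · exact h6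
          · have h7 := le_ciSup (f := fun i => v (b * (![1, X, Y] : Fin 3 → K) i)) (Set.finite_range _).bddAbove 0
            refine le_trans (le_of_eq ?_) h7
            show v b = v (b * 1)
            rw [mul_one]
        · rw [max_eq_right h5.le, ← h6, ← mul_pow]
          congr 1
          have h8 : v X ≤ v Y := by
            by_contra hcon
            push Not at hcon
            have h9 : v Y ^ 2 < v X ^ 2 := pow_lt_pow_left₀ hcon (apply_nonneg v Y) two_ne_zero
            have h10 : v X ^ 2 ≤ v X ^ 3 := pow_le_pow_right₀ h5.le (by norm_num)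
            linarith
          refine le_antisymm (ciSup_le fun i => ?_) ?_
          · rw [map_mul]
            refine mul_le_mul_of_nonneg_left ?_ hvb.le
            fin_cases i
            · show v (1 : K) ≤ v Y
              rw [map_one]
              linarith
            · exact h8
            · exact le_rfl
          · have h7 := le_ciSup (f := fun i => v (b * (![1, X, Y] : Fin 3 → K) i)) (Set.finite_range _).bddAbove 2
            refine le_trans (le_of_eq ?_) h7
            show v b * v Y = v (b * Y)
            rw [map_mul]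
      rw [← h3, h2, one_pow]
    show v (b / a) ^ 2 * max 1 (v X) = 1
    have hM : 0 < max 1 (v X) := lt_of_lt_of_le one_pos (le_max_left _ _)
    rw [map_div₀, div_pow]
    have h5 : v a = (max 1 (v X))⁻¹ := eq_inv_of_mul_eq_one_left h1
    have h6 : v b ^ 2 = (max 1 (v X) ^ 3)⁻¹ := eq_inv_of_mul_eq_one_left h4
    rw [h5, h6]
    field_simp

end VU
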