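import Pool.Agent.Lib.MP_17a322_ntVY.Stmt2
import Pool.Agent.Lib.MP_17a322_ntVU.Cl
import Pool.Agent.Lib.MP_17a322_ntVK.SD1
import Pool.Agent.Lib.MP_17a322_ntVU.W2

/-!
# Integral points on pairs whose log irregularity is at least the dimension: the definitions
-/

namespace VU

open Finset NumberField LVH VK

/-- the local condition: the coordinates of the torus are `x`, the values of the sections in `W`, the values of the
sections in `V` and the factors `γ_j`, `j ∈ R` (and units without meaning for the other indices) -/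
def RG {K : Type} [Field K] [NumberField K] {n h g M w s e : ℕ} {κ ι : Type} [Fintype κ] [Fintype ι]
    (A' B' : Fin h → 𝓞 K) {δ : Fin w → ℕ} {d' : Fin w → Fin h → ℕ} (W : Finset (Fin w)) (V R : Finset (Fin s))
    (ex : Fin s → ℕ) (E' : Fin w → κ → Fin n → ℤ) (b : IxM κ M δ d' → 𝓞 K) (ν : Fin s → ℕ)
    (d : Fin s → Fin (h + g) → ℕ) (E : Fin s → ι → Fin n → ℤ) (ω : Fin e → 𝓞 K) :
    Loc K (n + (w + s)) (h + g) (IxM ι M ν d × Fin e) :=
  fun p π u z =>
  {c | ∃ _ : Fact p.Prime,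
    (∀ l : Fin h, IsPt (res π ((A' l : 𝓞 K) : K)) (res π ((B' l : 𝓞 K) : K)) (z (Fin.castAdd g l))) ∧
    ∃ y : Fin (M + 1) → ZMod p, y ≠ 0 ∧ ∃ l : Fin (h + g) → ZMod p, (∀ i, l i ≠ 0) ∧
      (∀ k, (∏ i : Fin h, l (Fin.castAdd g i) ^ d' k i) *
        sM E' (fun t => res π ((b t : 𝓞 K) : K)) (fun l => u (Fin.castAdd (w + s) l))
          (fun l => z (Fin.castAdd g l)) y k = if k ∈ W then u (Fin.natAdd n (Fin.castAdd s k)) else 0) ∧
      (∀ j ∈ V, (∏ i, l i ^ d j i) *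
        sM E (fun t => ∑ k, c (t, k) * res π ((ω k : 𝓞 K) : K)) (fun l => u (Fin.castAdd (w + s) l)) z y j =
          u (Fin.natAdd n (Fin.natAdd w j))) ∧
      (∀ j ∉ V, j ∈ R → ∃ w' : ZMod p, u (Fin.natAdd n (Fin.natAdd w j)) * w' ^ ex j =
        sM E (fun t => ∑ k, c (t, k) * res π ((ω k : 𝓞 K) : K)) (fun l => u (Fin.castAdd (w + s) l)) z y j) ∧
      ∀ j ∉ V, j ∉ R →
        sM E (fun t => ∑ k, c (t, k) * res π ((ω k : 𝓞 K) : K)) (fun l => u (Fin.castAdd (w + s) l)) z y j = 0}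

end VU
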