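import Pool.Agent.Lib.MP_17a322_ntVU.V1
import Pool.Agent.Lib.MP_17a322_ntVU.GDefs
import Pool.Agent.Lib.MP_17a322_ntVK.SD4

/-!
# The density of the coefficients of the sections with values in given sets
-/

namespace VU

open Finset NumberField LVH VK

private def G3_e0 (M d : ℕ) : MWS.Mo M d ≃ {P : Fin (M + 1) → ℕ // ∑ i, P i = d} where
  toFun e := ⟨fun i => (e.1 i : ℕ), e.2⟩
  invFun P := ⟨fun i => ⟨P.1 i, Nat.lt_succ_of_le (le_of_le_of_eq
    (Finset.single_le_sum (f := P.1) (fun _ _ => Nat.zero_le _) (Finset.mem_univ i)) P.2)⟩, P.2⟩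
  left_inv _ := rfl
  right_inv _ := rfl

private noncomputable def G3_e (M d : ℕ) : MWS.Mo M d ≃ Sym (Fin (M + 1)) d :=
  (G3_e0 M d).trans (Sym.equivNatSumOfFintype _ _).symm

private theorem G3_mon {R : Type} [CommRing R] {M d : ℕ} (x : Fin (M + 1) → R) (γ : MWS.Mo M d) :
    LVH.mon x (G3_e M d γ) = MWS.mo x γ := by
  unfold LVH.mon MWS.mo G3_e
  rw [Equiv.trans_apply, Sym.coe_equivNatSumOfFintype_symm_apply, ← Multiset.coe_mapAddMonoidHom, map_sum,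
    Multiset.prod_sum]
  refine Finset.prod_congr rfl fun i _ => ?_
  rw [map_nsmul, Multiset.prod_nsmul, Multiset.coe_mapAddMonoidHom, Multiset.map_singleton,
    Multiset.prod_singleton]
  rfl

theorem dens_sM (C : ℕ) : ∃ (d0 : ℕ) (c : ℝ), 0 < c ∧ c < 1 ∧ ∀ (K : Type) [Field K] [NumberField K] (p : ℕ)
    [Fact p.Prime] (π : Pl K p) (n M g s e : ℕ) (ι : Type) [Fintype ι] [DecidableEq ι] [Nonempty ι] (ν : Fin s → ℕ)
    (d : Fin s → Fin g → ℕ) (E : Fin s → ι → Fin n → ℤ) (ω : Module.Basis (Fin e) ℤ (𝓞 K)) (u : Fin n → ZMod p)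
    (z : Fin g → Option (ZMod p × ZMod p)) (i0 : Fin s) (T : Finset (Fin (M + 1) → ZMod p))
    (Y : (Fin (M + 1) → ZMod p) → Finset (Fin s → ZMod p)), (∀ l, u l ≠ 0) → (d0 ≤ ν i0 ∨ T.card ≤ 1) → NP T →
    ∑ t ∈ T, (Y t).card ≤ C * p ^ s →
    (∀ t ∈ T, ∀ b : Fin s → ZMod p, 3 * ((Y t).filter fun y => ∀ i, i ≠ i0 → y i = b i).card ≤ 2 * p) →
      (Nat.card {c : IxM ι M ν d × Fin e → ZMod p // ∃ t ∈ T,
        (fun j => sM E (fun t => ∑ k, c (t, k) * res π ((ω k : 𝓞 K) : K)) u z t j) ∈ Y t} : ℝ) ≤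
        (1 - c) * (p : ℝ) ^ Fintype.card (IxM ι M ν d × Fin e) := by
  classical
  obtain ⟨d0, c, hc0, hc1, H⟩ := dens C
  refine ⟨d0, c, hc0, hc1, ?_⟩
  intro K _ _ p _ π n M g s e ι _ _ _ ν d E ω u z i0 T Y hu hd0 hT hC h2
  have hpp : p.Prime := Fact.out
  choose t₀ ht₀ using fun j => bT_ne (E j) (d j) u hu z
  have hw : (fun k => res π ((ω k : 𝓞 K) : K)) ≠ 0 := w_ne (π := π) ω fun k => rd_res (int_mem π (ω k))
  obtain ⟨k₀, hk₀⟩ := Function.ne_iff.1 hw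
  have hk₀' : res π ((ω k₀ : 𝓞 K) : K) ≠ 0 := hk₀
  let F : (IxM ι M ν d × Fin e → ZMod p) →+ (LVY.Mo (Fin (M + 1)) ν → ZMod p) :=
    { toFun := fun c t => ∑ q : IxT ι (d t.1), ∑ k : Fin e, c (⟨t.1, ((G3_e M (ν t.1)).symm t.2, q)⟩, k) *
        (res π ((ω k : 𝓞 K) : K) * bT (E t.1) u z q)
      map_zero' := by
        funext t
        exact Finset.sum_eq_zero fun q _ => Finset.sum_eq_zero fun k _ => zero_mul _
      map_add' := fun c c' => by
        funext t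
        show ∑ q : IxT ι (d t.1), ∑ k : Fin e, (c (⟨t.1, ((G3_e M (ν t.1)).symm t.2, q)⟩, k) +
            c' (⟨t.1, ((G3_e M (ν t.1)).symm t.2, q)⟩, k)) * (res π ((ω k : 𝓞 K) : K) * bT (E t.1) u z q) =
          (∑ q : IxT ι (d t.1), ∑ k : Fin e, c (⟨t.1, ((G3_e M (ν t.1)).symm t.2, q)⟩, k) *
            (res π ((ω k : 𝓞 K) : K) * bT (E t.1) u z q)) +
          ∑ q : IxT ι (d t.1), ∑ k : Fin e, c' (⟨t.1, ((G3_e M (ν t.1)).symm t.2, q)⟩, k) *
            (res π ((ω k : 𝓞 K) : K) * bT (E t.1) u z q)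
        rw [← Finset.sum_add_distrib]
        refine Finset.sum_congr rfl fun q _ => ?_
        rw [← Finset.sum_add_distrib]
        exact Finset.sum_congr rfl fun k _ => add_mul _ _ _ }
  have hf : ∀ c t, F c t = ∑ q : IxT ι (d t.1), ∑ k : Fin e, c (⟨t.1, ((G3_e M (ν t.1)).symm t.2, q)⟩, k) *
        (res π ((ω k : 𝓞 K) : K) * bT (E t.1) u z q) := fun c t => rfl
  have hs' : Function.Surjective F := by
    intro y
    refine ⟨fun t => if t.1.2.2 = t₀ t.1.1 ∧ t.2 = k₀ then y ⟨t.1.1, G3_e M (ν t.1.1) t.1.2.1⟩ *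
      (res π ((ω k₀ : 𝓞 K) : K) * bT (E t.1.1) u z (t₀ t.1.1))⁻¹ else 0, ?_⟩
    funext t
    rw [hf]
    rw [Finset.sum_eq_single (t₀ t.1)]
    · rw [Finset.sum_eq_single k₀]
      · show (if t₀ t.1 = t₀ t.1 ∧ k₀ = k₀ then y ⟨t.1, G3_e M (ν t.1) ((G3_e M (ν t.1)).symm t.2)⟩ *
          (res π ((ω k₀ : 𝓞 K) : K) * bT (E t.1) u z (t₀ t.1))⁻¹ else 0) *
            (res π ((ω k₀ : 𝓞 K) : K) * bT (E t.1) u z (t₀ t.1)) = y t
        rw [if_pos ⟨rfl, rfl⟩, mul_assoc, inv_mul_cancel₀ (mul_ne_zero hk₀' (ht₀ t.1)), mul_one,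
          Equiv.apply_symm_apply]
      · intro k _ hk
        show (if t₀ t.1 = t₀ t.1 ∧ k = k₀ then y ⟨t.1, G3_e M (ν t.1) ((G3_e M (ν t.1)).symm t.2)⟩ *
          (res π ((ω k₀ : 𝓞 K) : K) * bT (E t.1) u z (t₀ t.1))⁻¹ else 0) *
            (res π ((ω k : 𝓞 K) : K) * bT (E t.1) u z (t₀ t.1)) = 0
        rw [if_neg (fun h => hk h.2), zero_mul]
      · intro h
        exact absurd (Finset.mem_univ _) h
    · intro q _ hq
      refine Finset.sum_eq_zero fun k _ => ?_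
      show (if q = t₀ t.1 ∧ k = k₀ then y ⟨t.1, G3_e M (ν t.1) ((G3_e M (ν t.1)).symm t.2)⟩ *
          (res π ((ω k₀ : 𝓞 K) : K) * bT (E t.1) u z (t₀ t.1))⁻¹ else 0) *
            (res π ((ω k : 𝓞 K) : K) * bT (E t.1) u z q) = 0
      rw [if_neg (fun h => hq h.1), zero_mul]
    · intro h
      exact absurd (Finset.mem_univ _) h
  have hval : ∀ (c : IxM ι M ν d × Fin e → ZMod p) (y : Fin (M + 1) → ZMod p) (j : Fin s),
      sM E (fun t => ∑ k, c (t, k) * res π ((ω k : 𝓞 K) : K)) u z y j = LVY.Fv (F c) j y := by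
    intro c y j
    unfold sM LVY.Fv fv
    rw [Fintype.sum_prod_type, ← Equiv.sum_comp (G3_e M (ν j))]
    refine Finset.sum_congr rfl fun a _ => ?_
    show _ = F c ⟨j, G3_e M (ν j) a⟩ * LVH.mon y (G3_e M (ν j) a)
    rw [hf, Finset.sum_mul, G3_mon]
    refine Finset.sum_congr rfl fun q _ => ?_
    rw [Finset.sum_mul, Finset.sum_mul]
    refine Finset.sum_congr rfl fun k _ => ?_
    simp only [Equiv.symm_apply_apply]
    ring
  have h1 := MWS.card_surj F hs' {a | ∃ t ∈ T, (fun i => LVY.Fv a i t) ∈ Y t}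
  have h3 : Nat.card {c : IxM ι M ν d × Fin e → ZMod p // ∃ t ∈ T,
        (fun j => sM E (fun t => ∑ k, c (t, k) * res π ((ω k : 𝓞 K) : K)) u z t j) ∈ Y t} =
      Nat.card {c : IxM ι M ν d × Fin e → ZMod p // F c ∈ {a : LVY.Mo (Fin (M + 1)) ν → ZMod p |
        ∃ t ∈ T, (fun i => LVY.Fv a i t) ∈ Y t}} := by
    refine Nat.card_congr (Equiv.subtypeEquivRight fun c => ?_)
    show (∃ t ∈ T, _) ↔ ∃ t ∈ T, _
    refine exists_congr fun t => and_congr_right fun _ => ?_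
    rw [show (fun j => sM E (fun t => ∑ k, c (t, k) * res π ((ω k : 𝓞 K) : K)) u z t j) =
      fun i => LVY.Fv (F c) i t from funext fun j => hval c t j]
  rw [← h3] at h1
  have h4 := H p (Fin (M + 1)) s ν i0 T Y hd0 hT hC h2
  have hp0 : (0 : ℝ) < (p : ℝ) ^ Fintype.card (LVY.Mo (Fin (M + 1)) ν) := by
    have : (0 : ℝ) < p := by exact_mod_cast hpp.pos
    positivity
  have h5 : (Nat.card {c : IxM ι M ν d × Fin e → ZMod p // ∃ t ∈ T,
        (fun j => sM E (fun t => ∑ k, c (t, k) * res π ((ω k : 𝓞 K) : K)) u z t j) ∈ Y t} : ℝ) *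
        (p : ℝ) ^ Fintype.card (LVY.Mo (Fin (M + 1)) ν) =
      (Nat.card {a : LVY.Mo (Fin (M + 1)) ν → ZMod p // ∃ t ∈ T, (fun i => LVY.Fv a i t) ∈ Y t} : ℝ) *
        (p : ℝ) ^ Fintype.card (IxM ι M ν d × Fin e) := by
    exact_mod_cast h1
  refine le_of_mul_le_mul_right ?_ hp0
  rw [h5]
  calc _ ≤ ((1 - c) * (p : ℝ) ^ Fintype.card (LVY.Mo (Fin (M + 1)) ν)) *
          (p : ℝ) ^ Fintype.card (IxM ι M ν d × Fin e) :=
        mul_le_mul_of_nonneg_right h4 (by positivity)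
    _ = _ := by ring

end VU
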