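import Pool.Agent.Lib.MP_17a322_ntVU.G2
import Pool.Agent.Lib.MP_17a322_ntVU.G3
import Pool.Agent.Lib.MP_17a322_ntVY.UJ
import Pool.Agent.Lib.MP_17a322_ntVY.VD
import Pool.Agent.Lib.MP_17a322_ntLH.E5A
import Pool.Agent.Lib.MP_17a322_ntCT.PE
import Pool.Agent.Lib.MP_17a322_ntLH.T4

/-!
# The density of the local condition
-/

namespace VU

open Finset NumberField LVH VK

private theorem G4_mo {F : Type} [Field F] {m n : ℕ} (l : F) (y : Fin (m + 1) → F) (γ : MWS.Mo m n) :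
    MWS.mo (l • y) γ = l ^ n * MWS.mo y γ := by
  unfold MWS.mo
  have h1 : ∀ i, (l • y) i ^ (γ.1 i : ℕ) = l ^ (γ.1 i : ℕ) * y i ^ (γ.1 i : ℕ) := fun i => by
    rw [Pi.smul_apply, smul_eq_mul, mul_pow]
  rw [Finset.prod_congr rfl fun i _ => h1 i, Finset.prod_mul_distrib, Finset.prod_pow_eq_pow_sum,
    γ.2]

theorem sM_smul {F : Type} [Field F] {n m g s : ℕ} {ι : Type} [Fintype ι] {ν : Fin s → ℕ}
    {d : Fin s → Fin g → ℕ} (E : Fin s → ι → Fin n → ℤ) (a : IxM ι m ν d → F) (x : Fin n → F)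
    (P : Fin g → Option (F × F)) (l : F) (y : Fin (m + 1) → F) (j : Fin s) :
    sM E a x P (l • y) j = l ^ ν j * sM E a x P y j := by
  unfold sM
  rw [Finset.mul_sum]
  refine Finset.sum_congr rfl fun t _ => ?_
  rw [G4_mo]
  ring

/-- the value of the character `cl d ν` -/
private theorem G4_ch {p q : ℕ} [Fact p.Prime] (l : Fin q → ZMod p) (hl : ∀ i, l i ≠ 0) (a : ZMod p) (ha : a ≠ 0)
    (d : Fin q → ℕ) (ν : ℕ) :
    ((∏ m, (Sum.elim (fun i => Units.mk0 (l i) (hl i)) (fun _ => Units.mk0 a ha) m : (ZMod p)ˣ) ^ cl d ν m :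
      (ZMod p)ˣ) : ZMod p) = (∏ i, l i ^ d i) * a ^ ν := by
  rw [Fintype.prod_sum_type]
  simp only [Sum.elim_inl, Sum.elim_inr, Finset.univ_unique, Finset.prod_singleton, cl]
  rw [Units.val_mul, Units.coe_prod]
  congr 1

theorem dens_RG (K : Type) [Field K] [NumberField K] {n h r M w : ℕ} {κ : Type} [Fintype κ] {δ : Fin w → ℕ}
    {d' : Fin w → Fin h → ℕ} (A' B' : Fin h → 𝓞 K) (E' : Fin w → κ → Fin n → ℤ) (b : IxM κ M δ d' → 𝓞 K)
    (hF : Fib A' B' E' b r) : ∃ (ν0 : ℕ) (κ0 : ℝ), 0 < κ0 ∧ κ0 ≤ 1 ∧ ∀ (L : Type) [Field L] [NumberField L]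
      (g s e : ℕ) (ι : Type) [Fintype ι] [DecidableEq ι] [Nonempty ι] (ν : Fin s → ℕ) (d : Fin s → Fin (h + g) → ℕ)
      (E : Fin s → ι → Fin n → ℤ) (ω : Module.Basis (Fin e) ℤ (𝓞 K)) (W : Finset (Fin w)) (V R : Finset (Fin s))
      (ex : Fin s → ℕ), (∀ k ∈ W, 1 ≤ δ k) → (∀ j ∈ R, ex j ∣ ν j) →
      r + Set.finrank ℤ (clD W V δ d' ν d) + (R \ V).card ≤ s + 1 →
      ((∃ j, (ν0 ≤ ν j ∨ M = 0) ∧ (j ∈ V → ∃ N : ℕ, 1 ≤ N ∧
        (N : ℤ) • cl (d j) (ν j) ∈ Submodule.span ℤ (clD W (V.erase j) δ d' ν d)) ∧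
        (j ∉ V → j ∈ R → ∃ q : ℕ, q.Prime ∧ q ∣ ex j ∧ ∃ ζ : L, IsPrimitiveRoot ζ q)) ∨
        (w = 0 ∧ V = ∅ ∧ R = ∅ ∧ M ≤ s ∧ (∀ j, 1 ≤ ν j) ∧ M + 1 ≤ ∑ j, ν j)) →
      ∃ p0 : ℕ, DensK L p0 (RG A' B' W V R ex E' b ν d E ω) κ0 := by
  classical
  obtain ⟨C, N0, hN0, hC⟩ := cnt_fib K A' B' E' b r hF
  obtain ⟨ν0, κ0, hκ0, hκ1, hden⟩ := dens_sM (2 * C)
  refine ⟨ν0, min κ0 (1 / 20), lt_min hκ0 (by norm_num), (min_le_left _ _).trans hκ1.le,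
    fun L _ _ g s e ι _ _ _ ν d E ω W V R ex hW hexν hr hex => ?_⟩
  have hmono : ∀ {p : ℕ} {N : ℕ} {x κ1 : ℝ}, min κ0 (1 / 20) ≤ κ1 → x ≤ (1 - κ1) * (p : ℝ) ^ N →
      x ≤ (1 - min κ0 (1 / 20)) * (p : ℝ) ^ N := by
    intro p N x κ1 h1 h2
    refine h2.trans (mul_le_mul_of_nonneg_right ?_ (by positivity))
    linarith
  rcases hex with ⟨i0, hi0, hiV, hiR⟩ | ⟨hw0, hV0, hR0, hMs, hν1, hsum⟩
  swap
  · -- the case of the projective space
    refine ⟨11, fun p hpp hp hD1 π u z hu => ?_⟩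
    have h1 := dens_RB L hMs ν hν1 hsum d E ω p hpp hp hD1 π (fun l => u (Fin.castAdd (w + s) l)) z (fun l => hu _)
    refine hmono (min_le_right _ _) (le_trans ?_ h1)
    have hsub : RG A' B' W V R ex E' b ν d E ω p π u z ⊆
        RB (m := M) ν d E ω p π (fun l => u (Fin.castAdd (w + s) l)) z := by
      rintro c ⟨h2, _, y, hy, l, hl, _, _, _, h3⟩
      refine ⟨h2, y, hy, fun j => h3 j ?_ ?_⟩
      · rw [hV0]
        exact Finset.notMem_empty j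
      · rw [hR0]
        exact Finset.notMem_empty j
    have hfact : Fact p.Prime := ⟨hpp⟩
    have h3 := Nat.card_mono (Set.toFinite _) hsub
    exact_mod_cast h3
  obtain ⟨N, hN, hNV⟩ : ∃ N : ℕ, 1 ≤ N ∧ (i0 ∈ V →
      (N : ℤ) • cl (d i0) (ν i0) ∈ Submodule.span ℤ (clD W (V.erase i0) δ d' ν d)) := by
    by_cases hi : i0 ∈ V
    · obtain ⟨N, h1, h2⟩ := hiV hi
      exact ⟨N, h1, fun _ => h2⟩
    · exact ⟨1, le_rfl, fun h => absurd h hi⟩
  obtain ⟨Q, hQ⟩ : ∃ Q : ℕ, i0 ∉ V → i0 ∈ R → ∃ q : ℕ, q ≤ Q ∧ q.Prime ∧ q ∣ ex i0 ∧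
      ∃ ζ : L, IsPrimitiveRoot ζ q := by
    by_cases hi : i0 ∉ V ∧ i0 ∈ R
    · obtain ⟨q, h1, h2, h3⟩ := hiR hi.1 hi.2
      exact ⟨q, fun _ _ => ⟨q, le_rfl, h1, h2, h3⟩⟩
    · exact ⟨0, fun h1 h2 => absurd ⟨h1, h2⟩ hi⟩
  refine ⟨N0 + 2 * N + 3 + Q, ?_⟩
  intro p hpp hp hD1 π u z hu
  have hfact : Fact p.Prime := ⟨hpp⟩
  refine hmono (min_le_left _ _) ?_
  by_cases hz : ∀ l : Fin h, IsPt (res π ((A' l : 𝓞 K) : K)) (res π ((B' l : 𝓞 K) : K))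
      (z (Fin.castAdd g l))
  swap
  · have h0 : RG A' B' W V R ex E' b ν d E ω p π u z = ∅ := by
      ext c
      constructor
      · rintro ⟨_, h1, _⟩
        exact absurd h1 hz
      · intro h1
        exact absurd h1 (Set.notMem_empty c)
    rw [h0, Nat.card_coe_set_eq, Set.ncard_empty, Nat.cast_zero]
    exact mul_nonneg (by linarith) (by positivity)
  obtain ⟨φ, hφ⟩ := res_hom π
  obtain ⟨f, hf⟩ : ∃ f : Fin w → (Fin (M + 1) → ZMod p) → ZMod p, f = fun k y =>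
      sM E' (fun t => res π ((b t : 𝓞 K) : K)) (fun l => u (Fin.castAdd (w + s) l))
        (fun l => z (Fin.castAdd g l)) y k := ⟨_, rfl⟩
  have hfs : ∀ k (l : ZMod p) y, f k (l • y) = l ^ δ k * f k y := by
    intro k l y
    rw [hf]
    exact sM_smul _ _ _ _ _ _ _
  have hNp : ((N0 : ℕ) : ZMod p) ≠ 0 := by
    intro h0
    rw [ZMod.natCast_eq_zero_iff] at h0
    have h1 := Nat.le_of_dvd (Nat.pos_of_ne_zero hN0) h0
    omega
  have hCf : ∀ v1 : Fin w → ZMod p, (∀ k, v1 k = 0 ∨ 1 ≤ δ k) →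
      Nat.card {y : Fin (M + 1) → ZMod p // ∀ k, f k y = v1 k} ≤ C * p ^ r := by
    intro v1 hv1
    have h1 := hC (ZMod p) φ hNp (fun l => u (Fin.castAdd (w + s) l)) (fun l => z (Fin.castAdd g l))
      (fun l => hu _) (fun l => by rw [hφ, hφ]; exact hz l) v1 hv1
    rw [Nat.card_zmod] at h1
    refine le_trans (le_of_eq (Nat.card_congr (Equiv.subtypeEquivRight fun y => ?_))) h1
    refine forall_congr' fun k => ?_
    rw [hf]
    simp only [hφ]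
  obtain ⟨T, hT, hcov⟩ := LVH.reps p (Fin (M + 1))
  have hT1 : M = 0 → T.card ≤ 1 := by
    rintro rfl
    have hsub1 : Subsingleton (Fin (0 + 1)) := (inferInstance : Subsingleton (Fin 1))
    refine Finset.card_le_one.2 fun x hx x' hx' => ?_
    by_contra hne
    have h0 : x 0 ≠ 0 := by
      intro h0
      refine (hT x hx).1 (funext fun i => ?_)
      rw [Subsingleton.elim i 0, h0]
      rfl
    refine (hT x hx).2 x' hx' hne (x' 0 * (x 0)⁻¹) (funext fun i => ?_)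
    rw [Subsingleton.elim i 0, Pi.smul_apply, smul_eq_mul, inv_mul_cancel_right₀ h0]
  obtain ⟨v, hv⟩ : ∃ v : Fin w → ZMod p, v = fun k => u (Fin.natAdd n (Fin.castAdd s k)) := ⟨_, rfl⟩
  obtain ⟨v', hv'⟩ : ∃ v' : Fin s → ZMod p, v' = fun j => u (Fin.natAdd n (Fin.natAdd w j)) := ⟨_, rfl⟩
  obtain ⟨dW, hdW⟩ : ∃ dW : Fin w → Fin (h + g) → ℕ, dW = fun k => Fin.append (d' k) (0 : Fin g → ℕ) := ⟨_, rfl⟩
  have hcc : ∀ V, cc W V δ dW ν d = clD W V δ d' ν d := by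
    intro V
    rw [hdW]
    rfl
  have hpairs := pairs W V R ex δ dW ν d f hfs hCf hW v v' T hT (by rw [hcc]; exact hr)
  obtain ⟨Y, hY⟩ : ∃ Y : (Fin (M + 1) → ZMod p) → Finset (Fin s → ZMod p),
      Y = fun y => (Set.toFinite (Tt W V R ex δ dW ν d f v v' y)).toFinset := ⟨_, rfl⟩
  have hYm : ∀ y t, t ∈ Y y ↔ t ∈ Tt W V R ex δ dW ν d f v v' y := by
    intro y t
    rw [hY]
    exact Set.Finite.mem_toFinset _
  have hYc : ∀ y, (Y y).card = Nat.card (Tt W V R ex δ dW ν d f v v' y) := by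
    intro y
    rw [hY]
    exact (Nat.card_eq_card_finite_toFinset (Set.toFinite (Tt W V R ex δ dW ν d f v v' y))).symm
  have hRq : i0 ∉ V → i0 ∈ R → ∃ q : ℕ, q.Prime ∧ q ∣ p - 1 ∧ q ∣ ex i0 := by
    intro h1 h2
    obtain ⟨q, h3, h4, h5, ζ, hζ⟩ := hQ h1 h2
    obtain ⟨π'⟩ := exists_pl L hpp hD1
    exact ⟨q, h4, root_dvd h4 (by omega) π' hζ, h5⟩
  have hD := hden K p π n M (h + g) s e ι ν d E ω (fun l => u (Fin.castAdd (w + s) l)) z i0 T Y (fun l => hu _)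
    (hi0.imp id hT1) hT
    (by
      simp_rw [hYc]
      exact hpairs)
    (fun t ht b' => slice W V R ex δ dW ν d f v (fun k _ => by rw [hv]; exact hu _) v' (fun j _ => by rw [hv']; exact hu _)
        i0 N hN (by omega) (fun hi => by rw [hcc]; exact hNV hi) hRq t ((Y t).filter fun y => ∀ i, i ≠ i0 → y i = b' i)
        (fun y hy => (hYm t y).1 (mem_filter.1 hy).1) b' (fun y hy => (mem_filter.1 hy).2))
  refine le_trans ?_ hD
  have hsub : RG A' B' W V R ex E' b ν d E ω p π u z ⊆ {c : IxM ι M ν d × Fin e → ZMod p | ∃ t ∈ T,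
      (fun j => sM E (fun t => ∑ k, c (t, k) * res π ((ω k : 𝓞 K) : K)) (fun l => u (Fin.castAdd (w + s) l)) z t j) ∈
        Y t} := by
    rintro c ⟨_, _, y, hy, l, hl, h1, h2, h3, h4⟩
    obtain ⟨t, ht, a, ha, hat⟩ := hcov y hy
    refine ⟨t, ht, (hYm _ _).2 ⟨fun m => Sum.elim (fun i => Units.mk0 (l i) (hl i)) (fun _ => Units.mk0 a ha) m,
      fun k => ?_, fun j hj => ?_, fun j hj hjR => ?_, fun j hj hjR => ?_⟩⟩
    · rw [G4_ch l hl a ha, hdW, Fin.prod_univ_add]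
      have e1 : ∏ i : Fin g, l (Fin.natAdd h i) ^ (Fin.append (d' k) (0 : Fin g → ℕ)) (Fin.natAdd h i) = 1 :=
        Finset.prod_eq_one fun i _ => by rw [Fin.append_right, Pi.zero_apply, pow_zero]
      have e2 : ∏ i : Fin h, l (Fin.castAdd g i) ^ (Fin.append (d' k) (0 : Fin g → ℕ)) (Fin.castAdd g i) =
          ∏ i : Fin h, l (Fin.castAdd g i) ^ d' k i :=
        Finset.prod_congr rfl fun i _ => by rw [Fin.append_left]
      rw [e1, e2, mul_one]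
      have e3 := h1 k
      rw [← hat, sM_smul, ← mul_assoc] at e3
      rw [hf, hv]
      exact e3
    · have e3 := h2 j hj
      rw [← hat, sM_smul, ← mul_assoc] at e3
      have hne : (∏ i, l i ^ d j i) * a ^ ν j ≠ 0 :=
        mul_ne_zero (Finset.prod_ne_zero_iff.2 fun i _ => pow_ne_zero _ (hl i)) (pow_ne_zero _ ha)
      rw [Units.val_inv_eq_inv_val, G4_ch l hl a ha, hv']
      exact (eq_mul_inv_iff_mul_eq₀ hne).2 (by rw [mul_comm]; exact e3)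
    · obtain ⟨w', hw'⟩ := h3 j hj hjR
      rw [← hat, sM_smul] at hw'
      obtain ⟨m, hm⟩ := hexν j hjR
      refine ⟨w' * (a ^ m)⁻¹, ?_⟩
      rw [hv']
      show u (Fin.natAdd n (Fin.natAdd w j)) * (w' * (a ^ m)⁻¹) ^ ex j = _
      rw [mul_pow, ← mul_assoc, hw', inv_pow, ← pow_mul, mul_comm m, ← hm, mul_comm (a ^ ν j),
        mul_inv_cancel_right₀ (pow_ne_zero _ ha)]
    · have e3 := h4 j hj hjR
      rw [← hat, sM_smul] at e3
      exact (mul_eq_zero.1 e3).resolve_left (pow_ne_zero _ ha)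
  have h3 := Nat.card_mono (Set.toFinite _) hsub
  exact_mod_cast h3

end VU
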