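import Mathlib

/-!
# The number of the values of a family of characters of a finite torus
-/

namespace VU

open Finset

/-- the family of the values at `l` of the characters `c i` -/
def ch {G μ I : Type} [CommGroup G] [Fintype μ] (c : I → μ → ℤ) (l : μ → G) (i : I) : G := ∏ m, l m ^ c i m

/-- the character with the exponents `c` at `l` as an additive map in `c` -/
private def G1_f {G μ : Type} [CommGroup G] [Fintype μ] (l : μ → G) : (μ → ℤ) →+ Additive G where
  toFun c := Additive.ofMul (∏ m, l m ^ c m)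
  map_zero' := by
    show Additive.ofMul (∏ m, l m ^ (0 : ℤ)) = 0
    simp
  map_add' c c' := by
    show Additive.ofMul (∏ m, l m ^ (c m + c' m)) = _
    rw [← ofMul_mul, ← Finset.prod_mul_distrib]
    exact congrArg Additive.ofMul (Finset.prod_congr rfl fun m _ => zpow_add _ _ _)

theorem ch_card {G μ I : Type} [CommGroup G] [Finite G] [Fintype μ] [Finite I] (c : I → μ → ℤ) :
    Nat.card {f : I → G // ∃ l : μ → G, f = ch c l} ≤ Nat.card G ^ Set.finrank ℤ (Set.range c) := by
  classical
  let Λ : Submodule ℤ (μ → ℤ) := Submodule.span ℤ (Set.range c)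
  let b := Module.finBasis ℤ Λ
  have hb : ∀ (l : μ → G) (i : I), Additive.ofMul (ch c l i) = ∑ k, b.repr ⟨c i, Submodule.subset_span ⟨i, rfl⟩⟩ k •
      G1_f l (b k : μ → ℤ) := by
    intro l i
    have h1 : (c i : μ → ℤ) = ∑ k, b.repr ⟨c i, Submodule.subset_span ⟨i, rfl⟩⟩ k • (b k : μ → ℤ) := by
      have h2 := congrArg (Submodule.subtype Λ) (b.sum_repr ⟨c i, Submodule.subset_span ⟨i, rfl⟩⟩)
      rw [map_sum] at h2
      exact h2.symm
    have h3 : Additive.ofMul (ch c l i) = G1_f l (c i) := rfl
    rw [h3]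
    conv_lhs => rw [h1]
    rw [map_sum]
    exact Finset.sum_congr rfl fun k _ => map_zsmul _ _ _
  have hex : ∀ f : {f : I → G // ∃ l : μ → G, f = ch c l}, ∃ l : μ → G, f.1 = ch c l := fun f => f.2
  choose lf hlf using hex
  have hinj : Function.Injective fun (f : {f : I → G // ∃ l : μ → G, f = ch c l}) (k : Fin (Module.finrank ℤ Λ)) =>
      Additive.toMul (G1_f (lf f) (b k : μ → ℤ)) := by
    intro f f' hff
    apply Subtype.ext
    rw [hlf f, hlf f']
    funext i
    have h1 := hb (lf f) i
    have h2 := hb (lf f') i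
    have h3 : ∀ k, G1_f (lf f) (b k : μ → ℤ) = G1_f (lf f') (b k : μ → ℤ) := fun k =>
      Additive.toMul.injective (congrFun hff k)
    simp only [h3] at h1
    exact Additive.ofMul.injective (h1.trans h2.symm)
  have h := Nat.card_le_card_of_injective _ hinj
  rw [Nat.card_fun, Nat.card_eq_fintype_card (α := Fin _), Fintype.card_fin] at h
  exact h

/-- the value of the character of a multiple which is a combination of the others -/
theorem ch_eq {G μ : Type} [CommGroup G] [Fintype μ] (A : Set (μ → ℤ)) (c0 : μ → ℤ) (N : ℕ)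
    (h : (N : ℤ) • c0 ∈ Submodule.span ℤ A) (l l' : μ → G) (hA : ∀ a ∈ A, (∏ m, l m ^ a m) = ∏ m, l' m ^ a m) :
    (∏ m, l m ^ c0 m) ^ N = (∏ m, l' m ^ c0 m) ^ N := by
  have h1 : ∀ a ∈ Submodule.span ℤ A, G1_f l a = G1_f l' a := by
    intro a ha
    induction ha using Submodule.span_induction with
    | mem a ha => exact congrArg Additive.ofMul (hA a ha)
    | zero => rw [map_zero, map_zero]
    | add a b _ _ h1 h2 => rw [map_add, map_add, h1, h2]
    | smul r a _ h1 => rw [map_zsmul, map_zsmul, h1]
  have h2 := h1 _ h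
  rw [map_zsmul, map_zsmul] at h2
  have h3 := congrArg Additive.toMul h2
  rw [toMul_zsmul, toMul_zsmul, zpow_natCast, zpow_natCast] at h3
  exact h3

end VU
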