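import Pool.Agent.Lib.MP_17a322_ntVU.V0
import Pool.Agent.Lib.MP_17a322_ntLY.P5
import Pool.Agent.Lib.MP_17a322_ntLY.PDefs
import Pool.Agent.Lib.MP_17a322_ntLH.E2

/-!
# The density of the vectors of forms with values in given sets at some point of a finite set
-/

namespace VU

open Finset
open LVH (fv NP)
open LVY (Mo Bo Fv exists_m)

private theorem V1_big {B : Type} [Fintype B] (N G : B → ℕ) (p cA C : ℕ) (c : ℝ) (hp : 0 < (p : ℝ)) (hc : 0 ≤ c)
    (h1 : ∀ b, (N b : ℝ) ≤ 2 * C * p → (G b : ℝ) ≤ (1 - 2 * c) * cA) (h2 : ∀ b, G b ≤ cA)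
    (h3 : ∑ b, N b ≤ C * (p * Fintype.card B)) :
    ((∑ b, G b : ℕ) : ℝ) ≤ (1 - c) * (cA * Fintype.card B) := by
  have hA : (0 : ℝ) ≤ cA := Nat.cast_nonneg _
  have hB : (0 : ℝ) ≤ Fintype.card B := Nat.cast_nonneg _
  rcases Nat.eq_zero_or_pos C with h0 | hC
  · subst h0
    have h4 : ∀ b, (G b : ℝ) ≤ (1 - 2 * c) * cA := by
      intro b
      refine h1 b ?_
      rw [zero_mul] at h3
      have h5 : N b ≤ ∑ b, N b := Finset.single_le_sum (fun _ _ => Nat.zero_le _) (Finset.mem_univ b)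
      have h6 : N b = 0 := by omega
      rw [h6]
      simp
    rw [Nat.cast_sum]
    refine (Finset.sum_le_sum fun b _ => h4 b).trans ?_
    rw [Finset.sum_const, Finset.card_univ, nsmul_eq_mul]
    have h5 : 0 ≤ c * (cA * Fintype.card B) := by positivity
    linarith
  · have hCp : (0 : ℝ) < 2 * C * p := by positivity
    have h4 : ∀ b, (G b : ℝ) ≤ (1 - 2 * c + 2 * c * ((N b : ℝ) / (2 * C * p))) * cA := by
      intro b
      have hN : (0 : ℝ) ≤ (N b : ℝ) / (2 * C * p) := by positivity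
      rcases le_or_gt (N b : ℝ) (2 * C * p) with h | h
      · refine (h1 b h).trans ?_
        refine mul_le_mul_of_nonneg_right ?_ hA
        have : 0 ≤ 2 * c * ((N b : ℝ) / (2 * C * p)) := by positivity
        linarith
      · have h5 : (1 : ℝ) ≤ (N b : ℝ) / (2 * C * p) := by
          rw [le_div_iff₀ hCp, one_mul]
          exact h.le
        have h6 : (G b : ℝ) ≤ cA := by exact_mod_cast h2 b
        have h7 : (1 : ℝ) ≤ 1 - 2 * c + 2 * c * ((N b : ℝ) / (2 * C * p)) := by
          have h8 : 2 * c * 1 ≤ 2 * c * ((N b : ℝ) / (2 * C * p)) :=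
            mul_le_mul_of_nonneg_left h5 (by linarith)
          linarith
        calc (G b : ℝ) ≤ 1 * cA := by rw [one_mul]; exact h6
          _ ≤ _ := mul_le_mul_of_nonneg_right h7 hA
    have h5 : ((∑ b, N b : ℕ) : ℝ) / (2 * C * p) ≤ Fintype.card B / 2 := by
      rw [div_le_iff₀ hCp]
      have h6 : ((∑ b, N b : ℕ) : ℝ) ≤ ((C * (p * Fintype.card B) : ℕ) : ℝ) := by exact_mod_cast h3
      rw [Nat.cast_mul, Nat.cast_mul] at h6
      linarith
    rw [Nat.cast_sum]
    refine (Finset.sum_le_sum fun b _ => h4 b).trans ?_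
    rw [← Finset.sum_mul, Finset.sum_add_distrib, ← Finset.mul_sum, ← Finset.sum_div,
      Finset.sum_const, Finset.card_univ, nsmul_eq_mul, ← Nat.cast_sum]
    have h8 : (Fintype.card B : ℝ) * (1 - 2 * c) + 2 * c * (((∑ b, N b : ℕ) : ℝ) / (2 * C * p)) ≤
        (1 - c) * Fintype.card B := by
      have h9 : 2 * c * (((∑ b, N b : ℕ) : ℝ) / (2 * C * p)) ≤ 2 * c * (Fintype.card B / 2) :=
        mul_le_mul_of_nonneg_left h5 (by linarith)
      linarith
    calc _ ≤ ((1 - c) * Fintype.card B) * cA := mul_le_mul_of_nonneg_right h8 hA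
      _ = _ := by ring

private noncomputable def V1_e {p : ℕ} [Fact p.Prime] {σ : Type} [Fintype σ] [DecidableEq σ] {s : ℕ} (d : Fin s → ℕ)
    (i0 : Fin s) : (Mo σ d → ZMod p) ≃ (Sym σ (d i0) → ZMod p) × Bo σ p d i0 :=
  (Equiv.piCurry fun (i : Fin s) (_ : Sym σ (d i)) => ZMod p).trans
    (Equiv.piSplitAt i0 fun i => Sym σ (d i) → ZMod p)

theorem V1_N {p : ℕ} [Fact p.Prime] {τ ι : Type} [Fintype τ] [DecidableEq τ] [Fintype ι] [DecidableEq ι] (d : τ → ℕ)
    (x : ι → ZMod p) (hx : x ≠ 0) (y : τ → ZMod p) :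
    Nat.card {b : (i : τ) → Sym ι (d i) → ZMod p // ∀ i, fv (b i) x = y i} * p ^ Fintype.card τ =
      Fintype.card ((i : τ) → Sym ι (d i) → ZMod p) := by
  have e : {b : (i : τ) → Sym ι (d i) → ZMod p // ∀ i, fv (b i) x = y i} ≃
      ((i : τ) → {a : Sym ι (d i) → ZMod p // fv a x = y i}) :=
    Equiv.subtypePiEquivPi (p := fun {i : τ} (b : Sym ι (d i) → ZMod p) => fv b x = y i)
  have hT : LVH.NP ({x} : Finset (ι → ZMod p)) := by
    intro y hy
    rw [Finset.mem_singleton] at hy
    refine ⟨hy ▸ hx, fun y' hy' hne => ?_⟩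
    rw [Finset.mem_singleton] at hy'
    exact absurd (hy.trans hy'.symm) hne
  have h1 : ∀ i : τ, Nat.card {a : Sym ι (d i) → ZMod p // fv a x = y i} * p = p ^ Fintype.card (Sym ι (d i)) := by
    intro i
    have h := LVH.cnt (p := p) (ι := ι) (d i) {x} hT (by rw [Finset.card_singleton]; omega) fun _ => y i
    rw [Finset.card_singleton, pow_one] at h
    rw [← h]
    refine congrArg (fun n => n * p) (Nat.card_congr (Equiv.subtypeEquivRight fun a => ?_))
    constructor
    · intro h x' hx'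
      rw [Finset.mem_singleton] at hx'
      rw [hx']
      exact h
    · intro h
      exact h x (Finset.mem_singleton_self x)
  have h2 : Fintype.card ((i : τ) → Sym ι (d i) → ZMod p) = ∏ i, p ^ Fintype.card (Sym ι (d i)) := by
    rw [Fintype.card_pi]
    refine Finset.prod_congr rfl fun i _ => ?_
    rw [Fintype.card_fun, ZMod.card]
  have h3 : p ^ Fintype.card τ = ∏ _i : τ, p := by
    rw [Finset.prod_const, Finset.card_univ]
  rw [Nat.card_congr e, Nat.card_pi, h2, h3, ← Finset.prod_mul_distrib]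
  exact Finset.prod_congr rfl fun i _ => h1 i

private theorem V1_card {s : ℕ} (i0 : Fin s) : Fintype.card {i : Fin s // i ≠ i0} + 1 = s := by
  have h := Fintype.card_congr (Equiv.optionSubtypeNe i0)
  rw [Fintype.card_option, Fintype.card_fin] at h
  exact h


/-- the values of the `i0`-th form at `t` allowed by the values of the other forms -/
private def Tg {p : ℕ} {σ : Type} [Fintype σ] [DecidableEq σ] {s : ℕ} {d : Fin s → ℕ} {i0 : Fin s}
    (Y : (σ → ZMod p) → Finset (Fin s → ZMod p)) (b : Bo σ p d i0) (t : σ → ZMod p) : Finset (ZMod p) :=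
  ((Y t).filter fun y => ∀ i : {i : Fin s // i ≠ i0}, fv (b i) t = y i.1).image fun y => y i0

theorem dens (C : ℕ) : ∃ (d0 : ℕ) (c : ℝ), 0 < c ∧ c < 1 ∧ ∀ (p : ℕ) [Fact p.Prime] (σ : Type) [Fintype σ]
    [DecidableEq σ] (s : ℕ) (d : Fin s → ℕ) (i0 : Fin s) (T : Finset (σ → ZMod p))
    (Y : (σ → ZMod p) → Finset (Fin s → ZMod p)), (d0 ≤ d i0 ∨ T.card ≤ 1) → NP T → ∑ t ∈ T, (Y t).card ≤ C * p ^ s →
    (∀ t ∈ T, ∀ b : Fin s → ZMod p, 3 * ((Y t).filter fun y => ∀ i, i ≠ i0 → y i = b i).card ≤ 2 * p) →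
      (Nat.card {a : Mo σ d → ZMod p // ∃ t ∈ T, (fun i => Fv a i t) ∈ Y t} : ℝ) ≤
        (1 - c) * (p : ℝ) ^ Fintype.card (Mo σ d) := by
  classical
  obtain ⟨m, hm, hmC⟩ := exists_m (2 * (C : ℝ))
  refine ⟨2 * m, Real.exp (-2 * (2 * (C : ℝ))) / 4, by positivity, ?_, ?_⟩
  · have h1 : Real.exp (-2 * (2 * (C : ℝ))) ≤ 1 := by
      rw [Real.exp_le_one_iff]
      have : (0 : ℝ) ≤ C := Nat.cast_nonneg _
      linarith
    linarith
  · intro p _ σ _ _ s d i0 T Y hd0 hT hC h2
    have hpp : 0 < p := (Fact.out : p.Prime).pos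
    have hp : (0 : ℝ) < p := by exact_mod_cast hpp
    have hTg : ∀ (b : Bo σ p d i0) (t : σ → ZMod p), (Tg Y b t).card ≤
        ((Y t).filter fun y => ∀ i : {i : Fin s // i ≠ i0}, fv (b i) t = y i.1).card := fun b t => card_image_le
    -- the splitting
    have hsplit : Nat.card {a : Mo σ d → ZMod p // ∃ t ∈ T, (fun i => Fv a i t) ∈ Y t} =
        ∑ b : Bo σ p d i0, Nat.card {a : Sym σ (d i0) → ZMod p // ∃ t ∈ T, fv a t ∈ Tg Y b t} := by
      rw [← Nat.card_sigma]
      have e1 : {a : Mo σ d → ZMod p // ∃ t ∈ T, (fun i => Fv a i t) ∈ Y t} ≃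
          {r : (Sym σ (d i0) → ZMod p) × Bo σ p d i0 // ∃ t ∈ T, fv r.1 t ∈ Tg Y r.2 t} :=
        (V1_e d i0).subtypeEquiv fun a => by
          constructor
          · rintro ⟨t, ht, hy⟩
            exact ⟨t, ht, mem_image.2 ⟨_, mem_filter.2 ⟨hy, fun i => rfl⟩, rfl⟩⟩
          · rintro ⟨t, ht, hy⟩
            obtain ⟨y, hy1, hy2⟩ := mem_image.1 hy
            obtain ⟨hy3, hy4⟩ := mem_filter.1 hy1
            refine ⟨t, ht, ?_⟩
            have e2 : (fun i => Fv a i t) = y := by
              funext i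
              by_cases h : i = i0
              · subst h
                exact hy2.symm
              · exact hy4 ⟨i, h⟩
            rw [e2]
            exact hy3
      rw [Nat.card_congr e1]
      exact Nat.card_congr ⟨fun r => ⟨r.1.2, r.1.1, r.2⟩, fun r => ⟨(r.2.1, r.1), r.2.2⟩, fun _ => rfl, fun _ => rfl⟩
    have hall : (p : ℝ) ^ Fintype.card (Mo σ d) =
        ((p ^ Fintype.card (Sym σ (d i0)) : ℕ) : ℝ) * Fintype.card (Bo σ p d i0) := by
      have h := Fintype.card_congr (V1_e (p := p) (σ := σ) d i0)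
      rw [Fintype.card_prod, Fintype.card_fun, Fintype.card_fun, ZMod.card] at h
      exact_mod_cast h
    rw [hsplit, hall]
    refine V1_big (fun b : Bo σ p d i0 => ∑ t ∈ T, (Tg Y b t).card) _ p (p ^ Fintype.card (Sym σ (d i0))) C _ hp
      (by positivity) ?_ ?_ ?_
    · intro b hb
      have h1 := bonfG (Ω := Sym σ (d i0) → ZMod p) (τ := σ → ZMod p) p (fun t a => fv a t) T m hm
        (fun U hU hc v => by
          rw [Fintype.card_fun, ZMod.card]
          exact LVH.cnt (d i0) U (fun x hx => ⟨(hT x (hU hx)).1, fun x' hx' => (hT x (hU hx)).2 x' (hU hx')⟩)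
            (by
              rcases hd0 with h3 | h3
              · omega
              · have := card_le_card hU
                omega) v) (fun t => Tg Y b t) (2 * (C : ℝ))
        (fun t ht => by
          refine (Nat.mul_le_mul_left 3 (hTg b t)).trans ?_
          refine le_trans (Nat.mul_le_mul_left 3 (card_le_card ?_)) (h2 t ht fun i => if h : i ≠ i0 then fv (b ⟨i, h⟩) t else 0)
          intro y hy
          obtain ⟨h3, h4⟩ := mem_filter.1 hy
          refine mem_filter.2 ⟨h3, fun i hi => ?_⟩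
          rw [dif_pos hi]
          exact (h4 ⟨i, hi⟩).symm) (by exact_mod_cast hb)
      rw [Fintype.card_fun, ZMod.card] at h1
      refine h1.trans (mul_le_mul_of_nonneg_right ?_ (by positivity))
      linarith
    · intro b
      have h := Nat.card_le_card_of_injective
        (Subtype.val : {a : Sym σ (d i0) → ZMod p // ∃ t ∈ T, fv a t ∈ Tg Y b t} → _) Subtype.val_injective
      rw [Nat.card_eq_fintype_card (α := Sym σ (d i0) → ZMod p), Fintype.card_fun, ZMod.card] at h
      exact h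
    · -- the mean
      have hs1 : Fintype.card {i : Fin s // i ≠ i0} + 1 = s := V1_card i0
      have h3 : ∀ t ∈ T, (∑ b : Bo σ p d i0, (Tg Y b t).card) * p ^ Fintype.card {i : Fin s // i ≠ i0} ≤
          (Y t).card * Fintype.card (Bo σ p d i0) := by
        intro t ht
        have h4 : ∑ b : Bo σ p d i0, (Tg Y b t).card ≤
            ∑ b : Bo σ p d i0, ((Y t).filter fun y => ∀ i : {i : Fin s // i ≠ i0}, fv (b i) t = y i.1).card :=
          sum_le_sum fun b _ => hTg b t
        have h5 : ∑ b : Bo σ p d i0, ((Y t).filter fun y => ∀ i : {i : Fin s // i ≠ i0}, fv (b i) t = y i.1).card =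
            ∑ y ∈ Y t, Nat.card {b : Bo σ p d i0 // ∀ i, fv (b i) t = y i.1} := by
          simp_rw [card_filter]
          rw [sum_comm]
          refine sum_congr rfl fun y _ => ?_
          rw [Nat.card_eq_fintype_card, Fintype.card_subtype, card_filter]
        refine (Nat.mul_le_mul_right _ (h4.trans h5.le)).trans ?_
        rw [sum_mul]
        refine (sum_le_sum fun y _ => (V1_N (fun i : {i : Fin s // i ≠ i0} => d i.1) t (hT t ht).1 fun i => y i.1).le).trans ?_
        rw [sum_const, smul_eq_mul]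
      have h4 : (∑ b : Bo σ p d i0, ∑ t ∈ T, (Tg Y b t).card) * p ^ Fintype.card {i : Fin s // i ≠ i0} ≤
          C * p ^ s * Fintype.card (Bo σ p d i0) := by
        rw [sum_comm, sum_mul]
        refine (sum_le_sum h3).trans ?_
        rw [← sum_mul]
        exact Nat.mul_le_mul_right _ hC
      refine Nat.le_of_mul_le_mul_right (c := p ^ Fintype.card {i : Fin s // i ≠ i0}) (h4.trans ?_) (pow_pos hpp _)
      have h5 : p ^ s = p ^ Fintype.card {i : Fin s // i ≠ i0} * p := by rw [← pow_succ, hs1]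
      rw [h5]
      refine le_of_eq ?_
      ring

end VU
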