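import Pool.Agent.Lib.MP_17a322_ntVU.G1
import Pool.Agent.Lib.MP_17a322_ntVU.GDefs
import Pool.Agent.Lib.MP_17a322_ntLH.PDefs

/-!
# The number of the pairs of a point and of the values of the sections
-/

namespace VU

open Finset LVH

/-- the classes of the sections in `W` and in `V` -/
def cc {q w s : ℕ} (W : Finset (Fin w)) (V : Finset (Fin s)) (δ : Fin w → ℕ) (dW : Fin w → Fin q → ℕ)
    (ν : Fin s → ℕ) (d : Fin s → Fin q → ℕ) : Set (Fin q ⊕ Unit → ℤ) :=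
  {c | (∃ k ∈ W, c = cl (dW k) (δ k)) ∨ ∃ j ∈ V, c = cl (d j) (ν j)}

/-- the possible values at `y` of the sections with the index `j : Fin s`: `V` is the set of the components of the divisor,
`R` the set of the sections which are powers up to a factor -/
def Tt {p q w s : ℕ} {σ : Type} [Fact p.Prime] (W : Finset (Fin w)) (V R : Finset (Fin s)) (ex : Fin s → ℕ)
    (δ : Fin w → ℕ) (dW : Fin w → Fin q → ℕ) (ν : Fin s → ℕ) (d : Fin s → Fin q → ℕ)
    (f : Fin w → (σ → ZMod p) → ZMod p) (v : Fin w → ZMod p) (v' : Fin s → ZMod p) (y : σ → ZMod p) :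
    Set (Fin s → ZMod p) :=
  {t | ∃ l : Fin q ⊕ Unit → (ZMod p)ˣ,
    (∀ k, ((∏ m, l m ^ cl (dW k) (δ k) m : (ZMod p)ˣ) : ZMod p) * f k y = if k ∈ W then v k else 0) ∧
    (∀ j ∈ V, t j = v' j * (((∏ m, l m ^ cl (d j) (ν j) m : (ZMod p)ˣ)⁻¹ : (ZMod p)ˣ) : ZMod p)) ∧
    (∀ j ∉ V, j ∈ R → ∃ w : ZMod p, v' j * w ^ ex j = t j) ∧ ∀ j ∉ V, j ∉ R → t j = 0}

/-- the same change of the last coordinate for all characters -/
private theorem G2_ch {G : Type} [CommGroup G] {q : ℕ} (l : Fin q ⊕ Unit → G) (a : G) (d : Fin q → ℕ) (ν : ℕ) :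
    ∏ m, (fun m => Sum.elim (fun i => l (.inl i)) (fun u => l (.inr u) * a⁻¹) m : Fin q ⊕ Unit → G) m ^ cl d ν m =
      (∏ m, l m ^ cl d ν m) * (a ^ ν)⁻¹ := by
  rw [Fintype.prod_sum_type, Fintype.prod_sum_type]
  simp only [Sum.elim_inl, Sum.elim_inr, Finset.univ_unique, Finset.prod_singleton]
  rw [mul_zpow, mul_assoc]
  congr 2
  show (a⁻¹) ^ ((ν : ℕ) : ℤ) = _
  rw [zpow_natCast, inv_pow]

open Classical in
theorem pairs {p : ℕ} [Fact p.Prime] {σ : Type} [Finite σ] {w s q r C : ℕ} (W : Finset (Fin w))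
    (V R : Finset (Fin s)) (ex : Fin s → ℕ) (δ : Fin w → ℕ) (dW : Fin w → Fin q → ℕ) (ν : Fin s → ℕ) (d : Fin s → Fin q → ℕ)
    (f : Fin w → (σ → ZMod p) → ZMod p) (hf : ∀ k (l : ZMod p) y, f k (l • y) = l ^ δ k * f k y)
    (hC : ∀ v1 : Fin w → ZMod p, (∀ k, v1 k = 0 ∨ 1 ≤ δ k) →
      Nat.card {u : σ → ZMod p // ∀ k, f k u = v1 k} ≤ C * p ^ r) (hδ : ∀ k ∈ W, 1 ≤ δ k)
    (v : Fin w → ZMod p) (v' : Fin s → ZMod p) (T : Finset (σ → ZMod p)) (hT : NP T)
    (hr : r + Set.finrank ℤ (cc W V δ dW ν d) + (R \ V).card ≤ s + 1) :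
    ∑ y ∈ T, Nat.card (Tt W V R ex δ dW ν d f v v' y) ≤ 2 * C * p ^ s := by
  have hp : p.Prime := Fact.out
  let I : Type := {k // k ∈ W} ⊕ {j // j ∈ V}
  let c : I → (Fin q ⊕ Unit → ℤ) := Sum.elim (fun k => cl (dW k.1) (δ k.1)) (fun j => cl (d j.1) (ν j.1))
  have hrange : Set.range c = cc W V δ dW ν d := by
    ext a
    constructor
    · rintro ⟨i, rfl⟩
      rcases i with k | j
      · exact Or.inl ⟨k.1, k.2, rfl⟩
      · exact Or.inr ⟨j.1, j.2, rfl⟩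
    · rintro (⟨k, hk, rfl⟩ | ⟨j, hj, rfl⟩)
      · exact ⟨.inl ⟨k, hk⟩, rfl⟩
      · exact ⟨.inr ⟨j, hj⟩, rfl⟩
  let TT : Type := {τ : I → (ZMod p)ˣ // ∃ l : Fin q ⊕ Unit → (ZMod p)ˣ, τ = ch c l}
  have hTT : Nat.card TT ≤ (p - 1) ^ Set.finrank ℤ (cc W V δ dW ν d) := by
    have h := ch_card (G := (ZMod p)ˣ) c
    rw [hrange, Nat.card_eq_fintype_card (α := (ZMod p)ˣ), ZMod.card_units p] at h
    exact h
  let U : TT → Type := fun τ => {u : σ → ZMod p // ∀ k, f k u =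
    if h : k ∈ W then v k * (((τ.1 (.inl ⟨k, h⟩))⁻¹ : (ZMod p)ˣ) : ZMod p) else 0}
  have hU : ∀ τ, Nat.card (U τ) ≤ C * p ^ r := by
    intro τ
    refine hC _ fun k => ?_
    by_cases h : k ∈ W
    · exact Or.inr (hδ k h)
    · left
      rw [dif_neg h]
  have hfin : Finite TT := inferInstance
  have hft : Fintype TT := Fintype.ofFinite TT
  -- the left-hand side
  let Q : Type := Σ y : T, Tt W V R ex δ dW ν d f v v' y.1
  have hQ : Nat.card Q = ∑ y ∈ T, Nat.card (Tt W V R ex δ dW ν d f v v' y) := by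
    rw [Nat.card_sigma]
    exact Finset.sum_coe_sort T fun y => Nat.card (Tt W V R ex δ dW ν d f v v' y)
  have hex : ∀ a : Q, ∃ l : Fin q ⊕ Unit → (ZMod p)ˣ,
      (∀ k, ((∏ m, l m ^ cl (dW k) (δ k) m : (ZMod p)ˣ) : ZMod p) * f k a.1.1 = if k ∈ W then v k else 0) ∧
      (∀ j ∈ V, a.2.1 j = v' j * (((∏ m, l m ^ cl (d j) (ν j) m : (ZMod p)ˣ)⁻¹ : (ZMod p)ˣ) : ZMod p)) ∧
      (∀ j ∉ V, j ∈ R → ∃ w : ZMod p, v' j * w ^ ex j = a.2.1 j) ∧ ∀ j ∉ V, j ∉ R → a.2.1 j = 0 := fun a => a.2.2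
  choose lf hl1 hl2 hl3 hl4 using hex
  let L : (ZMod p)ˣ → Q → (Fin q ⊕ Unit → (ZMod p)ˣ) := fun a x m =>
    Sum.elim (fun i => lf x (.inl i)) (fun u => lf x (.inr u) * a⁻¹) m
  have hL : ∀ (a : (ZMod p)ˣ) (x : Q) (d0 : Fin q → ℕ) (ν0 : ℕ), ∏ m, L a x m ^ cl d0 ν0 m =
      (∏ m, lf x m ^ cl d0 ν0 m) * (a ^ ν0)⁻¹ := fun a x d0 ν0 => G2_ch (lf x) a d0 ν0
  let Φ : (ZMod p)ˣ × Q → (Σ τ : TT, U τ) × ({j // j ∈ R \ V} → ZMod p) :=
    fun a => ⟨⟨⟨ch c (L a.1 a.2), ⟨_, rfl⟩⟩, ⟨(a.1 : ZMod p) • a.2.1.1, by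
    intro k
    rw [hf]
    have h1 := hl1 a.2 k
    by_cases h : k ∈ W
    · rw [if_pos h] at h1
      rw [dif_pos h]
      show _ = v k * (((∏ m, L a.1 a.2 m ^ cl (dW k) (δ k) m)⁻¹ : (ZMod p)ˣ) : ZMod p)
      rw [hL, mul_inv, inv_inv, ← h1, Units.val_mul, Units.val_pow_eq_pow_val]
      have h2 : ((∏ m, lf a.2 m ^ cl (dW k) (δ k) m : (ZMod p)ˣ) : ZMod p) *
          (((∏ m, lf a.2 m ^ cl (dW k) (δ k) m : (ZMod p)ˣ)⁻¹ : (ZMod p)ˣ) : ZMod p) = 1 := Units.mul_inv _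
      linear_combination (-(f k a.2.1.1) * (a.1 : ZMod p) ^ δ k) * h2
    · rw [if_neg h] at h1
      rw [dif_neg h]
      rcases mul_eq_zero.1 h1 with h2 | h2
      · exact absurd h2 (Units.ne_zero _)
      · rw [h2, mul_zero]⟩⟩, fun j => a.2.2.1 j.1⟩
  have hΦ : Function.Injective Φ := by
    rintro ⟨a, ⟨⟨y, hy⟩, ⟨t, ht⟩⟩⟩ ⟨a', ⟨⟨y', hy'⟩, ⟨t', ht'⟩⟩⟩ h
    obtain ⟨h, h0⟩ := Prod.mk.inj h
    obtain ⟨h1, h2⟩ := Sigma.mk.inj h
    have h1' := congrArg Subtype.val h1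
    have h3 : (a : ZMod p) • y = (a' : ZMod p) • y' := by
      have h4 : ∀ (τ τ' : TT), τ = τ' → ∀ (u : U τ) (u' : U τ'), HEq u u' → u.1 = u'.1 := by
        rintro τ τ' rfl u u' h5
        rw [eq_of_heq h5]
      exact h4 _ _ h1 _ _ h2
    have h4 : y = y' := by
      by_contra hne
      refine (hT y hy).2 y' hy' hne (((a' : ZMod p))⁻¹ * (a : ZMod p)) ?_
      rw [mul_smul, h3, smul_smul, inv_mul_cancel₀ (Units.ne_zero a'), one_smul]
    subst h4
    have h5 : a = a' := by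
      obtain ⟨i, hi⟩ := Function.ne_iff.1 (hT y hy).1
      have h6 := congrFun h3 i
      rw [Pi.smul_apply, Pi.smul_apply, smul_eq_mul, smul_eq_mul] at h6
      exact Units.ext (mul_right_cancel₀ hi h6)
    subst h5
    have h6 : t = t' := by
      funext j
      by_cases hj : j ∈ V
      · have e1 := hl2 ⟨⟨y, hy⟩, ⟨t, ht⟩⟩ j hj
        have e2 := hl2 ⟨⟨y, hy'⟩, ⟨t', ht'⟩⟩ j hj
        change t j = _ at e1
        change t' j = _ at e2
        rw [e1, e2]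
        have h7 := congrFun h1' (.inr ⟨j, hj⟩)
        change ∏ m, L a ⟨⟨y, hy⟩, ⟨t, ht⟩⟩ m ^ cl (d j) (ν j) m = ∏ m, L a ⟨⟨y, hy'⟩, ⟨t', ht'⟩⟩ m ^ cl (d j) (ν j) m at h7
        rw [hL, hL] at h7
        rw [mul_right_cancel h7]
      · by_cases hjR : j ∈ R
        · exact congrFun h0 ⟨j, mem_sdiff.2 ⟨hjR, hj⟩⟩
        · have e1 := hl4 ⟨⟨y, hy⟩, ⟨t, ht⟩⟩ j hj hjR
          have e2 := hl4 ⟨⟨y, hy'⟩, ⟨t', ht'⟩⟩ j hj hjR
          change t j = 0 at e1
          change t' j = 0 at e2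
          rw [e1, e2]
    subst h6
    rfl
  have h1 := Nat.card_le_card_of_injective Φ hΦ
  rw [Nat.card_prod, Nat.card_eq_fintype_card (α := (ZMod p)ˣ), ZMod.card_units p, hQ, Nat.card_prod, Nat.card_sigma,
    Nat.card_fun, Nat.card_zmod, Nat.card_eq_fintype_card (α := {j // j ∈ R \ V}), Fintype.card_coe] at h1
  have h2 : (∑ τ : TT, Nat.card (U τ)) * p ^ (R \ V).card ≤ C * p ^ (s + 1) := by
    have h3 : ∑ τ : TT, Nat.card (U τ) ≤ C * p ^ (r + Set.finrank ℤ (cc W V δ dW ν d)) := by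
      refine (Finset.sum_le_sum fun τ _ => hU τ).trans ?_
      rw [Finset.sum_const, Finset.card_univ, smul_eq_mul, ← Nat.card_eq_fintype_card]
      calc Nat.card TT * (C * p ^ r) ≤ p ^ Set.finrank ℤ (cc W V δ dW ν d) * (C * p ^ r) :=
            Nat.mul_le_mul_right _ (hTT.trans (Nat.pow_le_pow_left (Nat.sub_le _ _) _))
        _ = C * p ^ (r + Set.finrank ℤ (cc W V δ dW ν d)) := by rw [pow_add p r]; ring
    calc (∑ τ : TT, Nat.card (U τ)) * p ^ (R \ V).card ≤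
          C * p ^ (r + Set.finrank ℤ (cc W V δ dW ν d)) * p ^ (R \ V).card := Nat.mul_le_mul_right _ h3
      _ = C * p ^ (r + Set.finrank ℤ (cc W V δ dW ν d) + (R \ V).card) := by rw [pow_add p _ (R \ V).card, mul_assoc]
      _ ≤ C * p ^ (s + 1) := Nat.mul_le_mul_left _ (Nat.pow_le_pow_right hp.pos hr)
  obtain ⟨S, hS⟩ : ∃ S, S = ∑ y ∈ T, Nat.card (Tt W V R ex δ dW ν d f v v' y) := ⟨_, rfl⟩
  rw [← hS] at h1 ⊢
  have h3 : (p - 1) * S ≤ C * p ^ (s + 1) := h1.trans h2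
  have h4 : p ≤ 2 * (p - 1) := by
    have := hp.two_le
    omega
  have h5 : p * S ≤ p * (2 * C * p ^ s) := by
    calc p * S ≤ 2 * (p - 1) * S := Nat.mul_le_mul_right _ h4
      _ = 2 * ((p - 1) * S) := by ring
      _ ≤ 2 * (C * p ^ (s + 1)) := Nat.mul_le_mul_left _ h3
      _ = p * (2 * C * p ^ s) := by rw [pow_succ]; ring
  exact Nat.le_of_mul_le_mul_left h5 hp.pos

/-- the number of the values `γ s ^ e` -/
private theorem G2_pow {p q e : ℕ} [Fact p.Prime] (hq : q.Prime) (hpq : q ∣ p - 1) (he : q ∣ e) (γ : ZMod p)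
    (A : Finset (ZMod p)) (hA : ∀ x ∈ A, ∃ s : ZMod p, γ * s ^ e = x) : 2 * A.card ≤ p + 1 := by
  classical
  have hpp : p.Prime := Fact.out
  obtain ⟨ζ, hζ⟩ := exists_prime_orderOf_dvd_card' (G := (ZMod p)ˣ) (p := q) (hp := ⟨hq⟩)
    (by rw [Nat.card_eq_fintype_card, ZMod.card_units_eq_totient, Nat.totient_prime hpp]; exact hpq)
  have hζ1 : ζ ≠ 1 := by
    intro h
    rw [h, orderOf_one] at hζ
    exact hq.one_lt.ne hζ
  have hζq : (ζ : ZMod p) ^ e = 1 := by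
    obtain ⟨a, rfl⟩ := he
    rw [pow_mul, ← hζ, ← Units.val_pow_eq_pow_val, pow_orderOf_eq_one, Units.val_one, one_pow]
  have hζ0 : (ζ : ZMod p) ≠ 0 := ζ.ne_zero
  set f : ZMod p → ZMod p := fun s => γ * s ^ e with hf
  set S : Finset (ZMod p) := univ.erase 0 with hS
  have hSc : S.card = p - 1 := by
    rw [hS, Finset.card_erase_of_mem (Finset.mem_univ _), Finset.card_univ, ZMod.card]
  have h1 : (S.image f).card * 2 ≤ S.card := by
    rw [Finset.card_eq_sum_card_image f S, ← smul_eq_mul]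
    refine Finset.card_nsmul_le_sum _ _ _ fun b hb => ?_
    obtain ⟨s, hs, rfl⟩ := Finset.mem_image.1 hb
    have hs0 : s ≠ 0 := (Finset.mem_erase.1 hs).1
    have hne : s ≠ (ζ : ZMod p) * s := by
      intro h
      apply hζ1
      apply Units.ext
      rw [Units.val_one]
      have h2 : (1 : ZMod p) * s = (ζ : ZMod p) * s := by rw [one_mul]; exact h
      exact (mul_right_cancel₀ hs0 h2).symm
    have hsub : ({s, (ζ : ZMod p) * s} : Finset (ZMod p)) ⊆ S.filter (fun x => f x = f s) := by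
      intro t ht
      rw [Finset.mem_insert, Finset.mem_singleton] at ht
      rw [Finset.mem_filter, hS, Finset.mem_erase]
      rcases ht with rfl | rfl
      · exact ⟨⟨hs0, Finset.mem_univ _⟩, rfl⟩
      · refine ⟨⟨mul_ne_zero hζ0 hs0, Finset.mem_univ _⟩, ?_⟩
        show γ * ((ζ : ZMod p) * s) ^ e = γ * s ^ e
        rw [mul_pow, hζq, one_mul]
    calc 2 = ({s, (ζ : ZMod p) * s} : Finset (ZMod p)).card := (Finset.card_pair hne).symm
      _ ≤ _ := Finset.card_le_card hsub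
  have h2 : A.card ≤ (univ.image f).card := by
    refine Finset.card_le_card fun x hx => ?_
    obtain ⟨s, hs⟩ := hA x hx
    exact Finset.mem_image.2 ⟨s, Finset.mem_univ _, hs⟩
  have h3 : (univ.image f).card ≤ (S.image f).card + 1 := by
    have h4 : univ.image f ⊆ insert (f 0) (S.image f) := by
      intro x hx
      obtain ⟨s, -, rfl⟩ := Finset.mem_image.1 hx
      by_cases h : s = 0
      · rw [h]
        exact Finset.mem_insert_self _ _
      · exact Finset.mem_insert_of_mem (Finset.mem_image.2 ⟨s, Finset.mem_erase.2 ⟨h, Finset.mem_univ _⟩, rfl⟩)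
    exact (Finset.card_le_card h4).trans (Finset.card_insert_le _ _)
  have hp1 := hpp.one_lt
  omega

open Classical in
/-- at most two thirds of the values of the section `i0` for given values of the others -/
theorem slice {p : ℕ} [Fact p.Prime] {σ : Type} {w s q : ℕ} (W : Finset (Fin w)) (V R : Finset (Fin s)) (ex : Fin s → ℕ)
    (δ : Fin w → ℕ) (dW : Fin w → Fin q → ℕ) (ν : Fin s → ℕ) (d : Fin s → Fin q → ℕ)
    (f : Fin w → (σ → ZMod p) → ZMod p) (v : Fin w → ZMod p) (hv : ∀ k ∈ W, v k ≠ 0) (v' : Fin s → ZMod p)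
    (hv' : ∀ j ∈ V, v' j ≠ 0) (i0 : Fin s) (N : ℕ) (hN : 1 ≤ N) (hp : 2 * N + 3 ≤ p)
    (h0 : i0 ∈ V → (N : ℤ) • cl (d i0) (ν i0) ∈ Submodule.span ℤ (cc W (V.erase i0) δ dW ν d))
    (hR : i0 ∉ V → i0 ∈ R → ∃ q : ℕ, q.Prime ∧ q ∣ p - 1 ∧ q ∣ ex i0)
    (y : σ → ZMod p) (Y : Finset (Fin s → ZMod p)) (hY : ∀ t ∈ Y, t ∈ Tt W V R ex δ dW ν d f v v' y)
    (b : Fin s → ZMod p) (hb : ∀ t ∈ Y, ∀ i, i ≠ i0 → t i = b i) : 3 * Y.card ≤ 2 * p := by
  have hinj : Set.InjOn (fun t : Fin s → ZMod p => t i0) (Y : Set (Fin s → ZMod p)) := by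
    intro t ht t' ht' h
    funext i
    by_cases hne : i = i0
    · rw [hne]
      exact h
    · rw [hb t ht i hne, hb t' ht' i hne]
  by_cases hi : i0 ∈ V
  · -- all the values have the same power
    rcases Y.eq_empty_or_nonempty with rfl | ⟨t0, ht0⟩
    · rw [card_empty]
      omega
    have hpow : ∀ t ∈ Y, t i0 ^ N = t0 i0 ^ N := by
      intro t ht
      obtain ⟨l, h1, h2, -⟩ := hY t ht
      obtain ⟨l', h3, h4, -⟩ := hY t0 ht0
      have hk : ∀ k ∈ W, (∏ m, l m ^ cl (dW k) (δ k) m) = ∏ m, l' m ^ cl (dW k) (δ k) m := by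
        intro k hk
        have e1 := h1 k
        have e2 := h3 k
        rw [if_pos hk] at e1 e2
        have hfk : f k y ≠ 0 := by
          intro h
          rw [h, mul_zero] at e1
          exact hv k hk e1.symm
        exact Units.ext (mul_right_cancel₀ hfk (e1.trans e2.symm))
      have hj : ∀ j ∈ V, j ≠ i0 → (∏ m, l m ^ cl (d j) (ν j) m) = ∏ m, l' m ^ cl (d j) (ν j) m := by
        intro j hj hne
        have e1 := (hb t ht j hne).trans (hb t0 ht0 j hne).symm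
        rw [h2 j hj, h4 j hj] at e1
        have e2 := Units.ext (mul_left_cancel₀ (hv' j hj) e1)
        exact inv_injective e2
      have h5 := ch_eq (cc W (V.erase i0) δ dW ν d) (cl (d i0) (ν i0)) N (h0 hi) l l'
        (by
          rintro a (⟨k, hkW, rfl⟩ | ⟨j, hjV, rfl⟩)
          · exact hk k hkW
          · exact hj j (mem_of_mem_erase hjV) (ne_of_mem_erase hjV))
      rw [h2 i0 hi, h4 i0 hi, mul_pow, mul_pow, ← Units.val_pow_eq_pow_val, ← Units.val_pow_eq_pow_val, inv_pow,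
        inv_pow, h5]
    have h6 : Y.card ≤ (Polynomial.nthRoots N (t0 i0 ^ N)).toFinset.card := by
      refine card_le_card_of_injOn _ ?_ hinj
      intro t ht
      rw [mem_coe, Multiset.mem_toFinset, Polynomial.mem_nthRoots hN]
      exact hpow t ht
    have h7 := h6.trans ((Multiset.toFinset_card_le _).trans (Polynomial.card_nthRoots N _))
    omega
  · by_cases hiR : i0 ∈ R
    · -- the value is a power up to a factor
      obtain ⟨q', hq', h1, h2⟩ := hR hi hiR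
      have h3 : 2 * (Y.image fun t => t i0).card ≤ p + 1 := by
        refine G2_pow hq' h1 h2 (v' i0) _ fun x hx => ?_
        obtain ⟨t, ht, rfl⟩ := mem_image.1 hx
        obtain ⟨l, _, _, h4, _⟩ := hY t ht
        exact h4 i0 hi hiR
      rw [card_image_of_injOn hinj] at h3
      omega
    · -- the value is zero
      have h3 : Y.card ≤ 1 := card_le_one.2 fun t ht t' ht' => hinj ht ht' (by
        obtain ⟨l, _, _, _, h4⟩ := hY t ht
        obtain ⟨l', _, _, _, h5⟩ := hY t' ht'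
        show t i0 = t' i0
        rw [h4 i0 hi hiR, h5 i0 hi hiR])
      omega

end VU
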