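import Mathlib

/-!
# The maximal minors of the Macaulay matrices of a family of polynomials
-/

namespace VU

open MvPolynomial

/-- the exponents of degree `D` -/
abbrev Ex (q D : ℕ) : Type := ↥(Finset.finsuppAntidiag (Finset.univ : Finset (Fin q)) D)

/-- the rows of the matrix: an element of the family and a monomial -/
abbrev Rw (ι : Type) (q D : ℕ) : Type := ι × (Fin q → Fin (D + 1))

/-- the exponent `β` -/
noncomputable def xp {q D : ℕ} (β : Fin q → Fin (D + 1)) : Fin q →₀ ℕ :=
  Finsupp.equivFunOnFinite.symm fun i => (β i : ℕ)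

/-- the entry of the matrix -/
noncomputable def en {R ι : Type} [CommRing R] {q D : ℕ} (g : ι → MvPolynomial (Fin q) R) (ρ : Rw ι q D) (α : Ex q D) : R :=
  coeff (α : Fin q →₀ ℕ) (monomial (xp ρ.2) 1 * g ρ.1)

/-- the minor with the rows `f α` -/
noncomputable def mn {R ι : Type} [CommRing R] {q D : ℕ} (g : ι → MvPolynomial (Fin q) R) (f : Ex q D → Rw ι q D) : R :=
  Matrix.det (Matrix.of fun α α' : Ex q D => en g (f α) α')

theorem mem_Ex {q D : ℕ} (α : Fin q →₀ ℕ) : α ∈ Finset.finsuppAntidiag (Finset.univ : Finset (Fin q)) D ↔ ∑ i, α i = D := by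
  rw [Finset.mem_finsuppAntidiag]
  simp

theorem en_map {R S ι : Type} [CommRing R] [CommRing S] (φ : R →+* S) {q D : ℕ} (g : ι → MvPolynomial (Fin q) R)
    (ρ : Rw ι q D) (α : Ex q D) : φ (en g ρ α) = en (fun i => map φ (g i)) ρ α := by
  unfold en
  rw [← coeff_map, map_mul, map_monomial, map_one]

theorem mn_map {R S ι : Type} [CommRing R] [CommRing S] (φ : R →+* S) {q D : ℕ} (g : ι → MvPolynomial (Fin q) R)
    (f : Ex q D → Rw ι q D) : φ (mn g f) = mn (fun i => map φ (g i)) f := by
  unfold mn
  rw [RingHom.map_det]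
  congr 1
  ext α α'
  exact en_map φ g (f α) α'

/-- the matrix of a spanning family has an invertible maximal submatrix -/
theorem det_span {F κ ρ : Type} [Field F] [Fintype κ] [DecidableEq κ] (M : ρ → κ → F)
    (h : Submodule.span F (Set.range M) = ⊤) : ∃ f : κ → ρ, Matrix.det (Matrix.of fun a b => M (f a) b) ≠ 0 := by
  obtain ⟨b, hb, hs, hl⟩ := exists_linearIndependent F (Set.range M)
  have hb' : Submodule.span F b = ⊤ := hs.trans h
  let B : Module.Basis b F (κ → F) := Module.Basis.mk hl (by rw [Subtype.range_coe]; exact hb'.ge)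
  let e : κ ≃ b := (Pi.basisFun F κ).indexEquiv B
  choose f hf using fun a : κ => hb (e a).2
  refine ⟨f, ?_⟩
  have h1 : (fun a => M (f a)) = fun a => ((e a : b) : κ → F) := funext fun a => hf a
  have h2 : LinearIndependent F (fun a => M (f a)) := by
    rw [h1]
    exact hl.comp e e.injective
  have h3 : IsUnit (Matrix.of fun a b => M (f a) b) := Matrix.linearIndependent_rows_iff_isUnit.1 h2
  exact ((Matrix.isUnit_iff_isUnit_det _).1 h3).ne_zero

/-- a family which generates all monomials of degree `D` has a nonzero minor -/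
theorem exists_mn {F ι : Type} [Field F] {q D : ℕ} (g : ι → MvPolynomial (Fin q) F)
    (h : ∀ α : Ex q D, monomial (α : Fin q →₀ ℕ) (1 : F) ∈ Ideal.span (Set.range g)) :
    ∃ f : Ex q D → Rw ι q D, mn g f ≠ 0 := by
  classical
  refine det_span (fun (ρ : Rw ι q D) (α : Ex q D) => en g ρ α) ?_
  rw [eq_top_iff]
  -- the linear map `P ↦ (coeff α P)_α`
  let Φ : MvPolynomial (Fin q) F →ₗ[F] (Ex q D → F) := LinearMap.pi fun α => lcoeff F (α : Fin q →₀ ℕ)
  have hΦ : ∀ P α, Φ P α = coeff (α : Fin q →₀ ℕ) P := fun P α => rfl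
  have h0 : ∀ (β : Fin q →₀ ℕ) (i : ι), Φ (monomial β 1 * g i) ∈
      Submodule.span F (Set.range fun (ρ : Rw ι q D) (α : Ex q D) => en g ρ α) := by
    intro β i
    by_cases hβ : ∀ b, β b < D + 1
    · refine Submodule.subset_span ⟨(i, fun b => ⟨β b, hβ b⟩), ?_⟩
      have e1 : xp (fun b => (⟨β b, hβ b⟩ : Fin (D + 1))) = β := Finsupp.ext fun b => rfl
      funext α
      show en g (i, fun b => ⟨β b, hβ b⟩) α = _
      unfold en
      rw [hΦ]
      show coeff (α : Fin q →₀ ℕ) (monomial (xp (fun b => (⟨β b, hβ b⟩ : Fin (D + 1)))) 1 * g i) = _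
      rw [e1]
    · push Not at hβ
      obtain ⟨b, hb⟩ := hβ
      have e1 : Φ (monomial β 1 * g i) = 0 := by
        funext α
        rw [hΦ, coeff_monomial_mul', if_neg]
        · rfl
        · intro h2
          have h3 := h2 b
          have h4 : (α : Fin q →₀ ℕ) b ≤ D := by
            have h5 := (mem_Ex _).1 α.2
            exact (Finset.single_le_sum (f := fun i => (α : Fin q →₀ ℕ) i) (fun _ _ => Nat.zero_le _)
              (Finset.mem_univ b)).trans h5.le
          omega
      rw [e1]
      exact Submodule.zero_mem _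
  have h1 : ∀ P ∈ Ideal.span (Set.range g), ∀ Q, Φ (Q * P) ∈
      Submodule.span F (Set.range fun (ρ : Rw ι q D) (α : Ex q D) => en g ρ α) := by
    intro P hP
    induction hP using Submodule.span_induction with
    | mem P hP =>
      obtain ⟨i, rfl⟩ := hP
      intro Q
      rw [Q.as_sum, Finset.sum_mul, map_sum]
      refine Submodule.sum_mem _ fun β _ => ?_
      have e2 : monomial β (coeff β Q) * g i = coeff β Q • (monomial β 1 * g i) := by
        rw [← smul_mul_assoc, smul_monomial, smul_eq_mul, mul_one]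
      rw [e2, map_smul]
      exact Submodule.smul_mem _ _ (h0 β i)
    | zero =>
      intro Q
      rw [mul_zero, map_zero]
      exact Submodule.zero_mem _
    | add P P' _ _ h2 h3 =>
      intro Q
      rw [mul_add, map_add]
      exact Submodule.add_mem _ (h2 Q) (h3 Q)
    | smul a P _ h2 =>
      intro Q
      rw [smul_eq_mul, ← mul_assoc]
      exact h2 (Q * a)
  intro x _
  have hx : x = ∑ α : Ex q D, x α • Φ (monomial (α : Fin q →₀ ℕ) 1) := by
    funext β
    rw [Finset.sum_apply, Finset.sum_eq_single β]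
    · rw [Pi.smul_apply, hΦ, coeff_monomial, if_pos rfl, smul_eq_mul, mul_one]
    · intro α _ hα
      rw [Pi.smul_apply, hΦ, coeff_monomial, if_neg (fun h => hα (Subtype.ext h)), smul_zero]
    · intro h
      exact absurd (Finset.mem_univ _) h
  rw [hx]
  refine Submodule.sum_mem _ fun α _ => Submodule.smul_mem _ _ ?_
  have h2 := h1 _ (h α) 1
  rwa [one_mul] at h2

end VU
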