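import Pool.Agent.Lib.MP_17a322_ntVU.U1
import Pool.Agent.Lib.MP_17a322_ntLY.A4

/-!
# A nonzero minor bounds the number of the points with given values of the linear forms
-/

namespace VU

open MvPolynomial

/-- homogeneous: the part of degree `D` of `X ^ β * G` at a point -/
theorem en_sum {F ι : Type} [Field F] {q D : ℕ} (g : ι → MvPolynomial (Fin q) F) (ρ : Rw ι q D) {n : ℕ}
    (hg : (g ρ.1).IsHomogeneous n) (u : Fin q → F) :
    ∑ α : Ex q D, en g ρ α * ∏ b, u b ^ ((α : Fin q →₀ ℕ) b) =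
      if ∑ b, (ρ.2 b : ℕ) + n = D then (∏ b, u b ^ (ρ.2 b : ℕ)) * eval u (g ρ.1) else 0 := by
  classical
  have hh : (monomial (xp ρ.2) (1 : F) * g ρ.1).IsHomogeneous (∑ b, (ρ.2 b : ℕ) + n) := by
    refine IsHomogeneous.mul ?_ hg
    refine isHomogeneous_monomial _ ?_
    rw [Finsupp.degree_eq_sum]
    rfl
  have he : eval u (monomial (xp ρ.2) (1 : F) * g ρ.1) = (∏ b, u b ^ (ρ.2 b : ℕ)) * eval u (g ρ.1) := by
    rw [map_mul, eval_monomial, one_mul, Finsupp.prod_fintype _ _ (fun i => pow_zero _)]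
    rfl
  have h1 : ∑ α : Ex q D, en g ρ α * ∏ b, u b ^ ((α : Fin q →₀ ℕ) b) =
      ∑ α ∈ Finset.finsuppAntidiag (Finset.univ : Finset (Fin q)) D,
        coeff α (monomial (xp ρ.2) (1 : F) * g ρ.1) * ∏ b, u b ^ (α b) :=
    Finset.sum_coe_sort (Finset.finsuppAntidiag (Finset.univ : Finset (Fin q)) D)
      (fun α => coeff α (monomial (xp ρ.2) (1 : F) * g ρ.1) * ∏ b, u b ^ (α b))
  rw [h1]
  split_ifs with hD
  · rw [← he, eval_eq']
    symm
    refine Finset.sum_subset ?_ ?_
    · intro α hα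
      rw [mem_Ex, ← hD, ← hh (mem_support_iff.1 hα)]
      simp [Finsupp.weight_apply, Finsupp.sum_fintype]
    · intro α _ hα
      rw [notMem_support_iff.1 hα, zero_mul]
  · refine Finset.sum_eq_zero fun α hα => ?_
    rw [hh.coeff_eq_zero, zero_mul]
    rw [Finsupp.degree_eq_sum, (mem_Ex α).1 hα]
    exact fun h => hD h.symm

/-- `#{u | G_k(u) = 0, ℓ_i(u) = λ_i} ≤ D ^ q` -/
theorem fib_le {F ι κ : Type} [Field F] {q D : ℕ} (hD : 1 ≤ D) (G : ι → MvPolynomial (Fin q) F) (μ : ι → ℕ)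
    (hG : ∀ k, (G k).IsHomogeneous (μ k)) (ell : κ → MvPolynomial (Fin q) F) (hl : ∀ i, (ell i).IsHomogeneous 1)
    (f : Ex q D → Rw (ι ⊕ κ) q D) (hf : mn (Sum.elim G ell) f ≠ 0) (lam : κ → F) (S : Finset (Fin q → F))
    (hS : ∀ u ∈ S, (∀ k, eval u (G k) = 0) ∧ ∀ i, eval u (ell i) = lam i) : S.card ≤ D ^ q := by
  classical
  set M : Matrix (Ex q D) (Ex q D) F := Matrix.of fun α α' => en (Sum.elim G ell) (f α) α' with hM
  have hu : IsUnit M.det := isUnit_iff_ne_zero.2 hf
  -- the exponent `D` at `b`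
  have hb : ∀ b : Fin q, Finsupp.single b D ∈ Finset.finsuppAntidiag (Finset.univ : Finset (Fin q)) D := by
    intro b
    rw [mem_Ex]
    simp [Finsupp.single_apply]
  let e : Fin q → Ex q D := fun b => ⟨Finsupp.single b D, hb b⟩
  -- the row polynomial
  let Rp : Ex q D → MvPolynomial (Fin q) F := fun α => match (f α).1 with
    | .inl _ => 0
    | .inr i => if ∑ b, ((f α).2 b : ℕ) + 1 = D then monomial (xp (f α).2) (lam i) else 0
  have hR : ∀ α, (Rp α).totalDegree < D := by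
    intro α
    show (match (f α).1 with
      | .inl _ => (0 : MvPolynomial (Fin q) F)
      | .inr i => if ∑ b, ((f α).2 b : ℕ) + 1 = D then monomial (xp (f α).2) (lam i) else 0).totalDegree < D
    rcases (f α).1 with k | i
    · rw [totalDegree_zero]
      exact hD
    · dsimp only
      split_ifs with h
      · refine lt_of_le_of_lt (totalDegree_monomial_le _ _) ?_
        rw [Finsupp.sum_fintype _ _ (fun _ => rfl)]
        show ∑ b, ((f α).2 b : ℕ) < D
        omega
      · rw [totalDegree_zero]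
        exact hD
  have hRe : ∀ u ∈ S, ∀ α, ∑ α' : Ex q D, M α α' * ∏ b, u b ^ ((α' : Fin q →₀ ℕ) b) = eval u (Rp α) := by
    intro u hu α
    obtain ⟨h1, h2⟩ := hS u hu
    show ∑ α' : Ex q D, en (Sum.elim G ell) (f α) α' * ∏ b, u b ^ ((α' : Fin q →₀ ℕ) b) = eval u (match (f α).1 with
      | .inl _ => (0 : MvPolynomial (Fin q) F)
      | .inr i => if ∑ b, ((f α).2 b : ℕ) + 1 = D then monomial (xp (f α).2) (lam i) else 0)
    rcases hρ : f α with ⟨k | i, β⟩
    · have h3 := en_sum (Sum.elim G ell) ((Sum.inl k, β) : Rw (ι ⊕ κ) q D) (n := μ k) (hG k) u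
      rw [h3]
      simp only [Sum.elim_inl, h1 k, mul_zero, ite_self, map_zero]
    · have h3 := en_sum (Sum.elim G ell) ((Sum.inr i, β) : Rw (ι ⊕ κ) q D) (n := 1) (hl i) u
      rw [h3]
      dsimp only
      split_ifs with h
      · rw [Sum.elim_inr, h2 i, eval_monomial, Finsupp.prod_fintype _ _ (fun i => pow_zero _), mul_comm]
        rfl
      · rw [map_zero]
  refine LVY.bez (fun b => ∑ α, C (M⁻¹ (e b) α) * Rp α) (fun b => ?_) S (fun u hu' b => ?_)
  · refine lt_of_le_of_lt (totalDegree_finsetSum _ _) ?_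
    rw [Finset.sup_lt_iff (by exact hD)]
    intro α _
    refine lt_of_le_of_lt (totalDegree_mul _ _) ?_
    rw [totalDegree_C, zero_add]
    exact hR α
  · rw [map_sum]
    have h1 : ∀ α, eval u (C (M⁻¹ (e b) α) * Rp α) =
        ∑ α' : Ex q D, M⁻¹ (e b) α * (M α α' * ∏ b, u b ^ ((α' : Fin q →₀ ℕ) b)) := by
      intro α
      rw [map_mul, eval_C, ← hRe u hu' α, Finset.mul_sum]
    rw [Finset.sum_congr rfl fun α _ => h1 α, Finset.sum_comm]
    have h2 : ∀ α' : Ex q D, ∑ α, M⁻¹ (e b) α * (M α α' * ∏ b, u b ^ ((α' : Fin q →₀ ℕ) b)) =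
        (M⁻¹ * M) (e b) α' * ∏ b, u b ^ ((α' : Fin q →₀ ℕ) b) := by
      intro α'
      rw [Matrix.mul_apply, Finset.sum_mul]
      exact Finset.sum_congr rfl fun α _ => by ring
    rw [Finset.sum_congr rfl fun α' _ => h2 α', Matrix.nonsing_inv_mul _ hu, Finset.sum_eq_single (e b)]
    · rw [Matrix.one_apply_eq, one_mul, Finset.prod_eq_single b]
      · show u b ^ D = u b ^ (Finsupp.single b D b)
        rw [Finsupp.single_eq_same]
      · intro b' _ hb'
        show u b' ^ (Finsupp.single b D b') = 1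
        rw [Finsupp.single_eq_of_ne (by exact hb'), pow_zero]
      · intro h
        exact absurd (Finset.mem_univ _) h
    · intro α' _ hα'
      rw [Matrix.one_apply_ne (Ne.symm hα'), zero_mul]
    · intro h
      exact absurd (Finset.mem_univ _) h

end VU
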